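import Pool.Agent.P.MP_22a609_co.Sorted

namespace Pool.Agent.P.MP_22a609_co

def lam : List ℕ := [4, 3, 2, 2, 1, 1, 1]

def ps (p : List ℕ) : List (Fin 15) :=
  [1, 2, 3, 4, 5, 6].map fun i => Fin.ofNat 15 (p.take i).sum

def fac (a : Bool) (p : List ℕ) : List (Fin 15) :=
  if a then 0 :: ps p else ps p ++ [14]

/-- suspension of the complex of partial sums of rearrangements of `lam` -/
def KK : Set (Set (Fin 15)) := {U | ∃ p : List ℕ, p.Perm lam ∧ ∃ a : Bool, U = {v | v ∈ fac a p}}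

def key (l : List (Fin 15)) : ℕ := ((l.map Fin.val).map fun i => 2 ^ i).sum

theorem key_inj (l m : List (Fin 15)) (hl : Srt l) (hm : Srt m) (h : key l = key m) : l = m := by
  have h1 : ∀ l : List (Fin 15), Srt l → (key l).bitIndices = l.map Fin.val := fun l hl =>
    Nat.bitIndices_sum_map_two_pow (List.Pairwise.sortedLT (List.pairwise_map.2 hl))
  have := (h1 l hl).symm.trans (h ▸ h1 m hm)
  exact List.map_injective_iff.2 Fin.val_injective this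

def keys : List ℕ := [4913, 4945, 5009, 5425, 5521, 6449, 6481, 6545, 12497, 12881, 13361, 13457, 13841, 14417]

def alp (l : List (Fin 15)) : ℤ := if l.length = 6 ∧ key l ∈ keys then 1 else 0

def cps : List (List ℕ) :=
  [[1, 1, 1, 2, 2, 3, 4], [1, 1, 1, 2, 2, 4, 3], [1, 1, 1, 2, 3, 2, 4], [1, 1, 1, 2, 3, 4, 2],
   [1, 1, 1, 2, 4, 2, 3], [1, 1, 1, 2, 4, 3, 2], [1, 1, 1, 3, 2, 2, 4], [1, 1, 1, 3, 2, 4, 2],
   [1, 1, 1, 3, 4, 2, 2], [1, 1, 1, 4, 2, 2, 3], [1, 1, 1, 4, 2, 3, 2], [1, 1, 1, 4, 3, 2, 2],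
   [1, 1, 2, 1, 2, 3, 4], [1, 1, 2, 1, 2, 4, 3], [1, 1, 2, 1, 3, 2, 4], [1, 1, 2, 1, 3, 4, 2],
   [1, 1, 2, 1, 4, 2, 3], [1, 1, 2, 1, 4, 3, 2], [1, 1, 2, 2, 1, 3, 4], [1, 1, 2, 2, 1, 4, 3],
   [1, 1, 2, 2, 4, 1, 3], [1, 1, 2, 4, 1, 2, 3], [1, 1, 2, 4, 1, 3, 2], [1, 1, 2, 4, 2, 1, 3],
   [1, 1, 4, 1, 2, 2, 3], [1, 1, 4, 1, 2, 3, 2], [1, 1, 4, 1, 3, 2, 2], [1, 1, 4, 2, 1, 2, 3],
   [1, 1, 4, 2, 1, 3, 2], [1, 1, 4, 2, 2, 1, 3], [1, 2, 2, 1, 1, 3, 4], [1, 2, 2, 1, 1, 4, 3],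
   [1, 2, 2, 1, 4, 1, 3], [1, 2, 2, 3, 1, 1, 4], [1, 2, 2, 3, 1, 4, 1], [1, 2, 2, 3, 4, 1, 1],
   [1, 2, 2, 4, 1, 1, 3], [1, 2, 2, 4, 3, 1, 1], [1, 2, 3, 1, 2, 1, 4], [1, 2, 3, 1, 2, 4, 1],
   [1, 2, 3, 1, 4, 2, 1], [1, 2, 3, 2, 1, 1, 4], [1, 2, 3, 2, 1, 4, 1], [1, 2, 3, 2, 4, 1, 1],
   [1, 2, 3, 4, 1, 2, 1], [1, 2, 3, 4, 2, 1, 1], [1, 2, 4, 2, 1, 1, 3], [1, 2, 4, 2, 3, 1, 1],
   [1, 2, 4, 3, 1, 2, 1], [1, 2, 4, 3, 2, 1, 1], [1, 3, 1, 1, 2, 2, 4], [1, 3, 1, 1, 2, 4, 2],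
   [1, 3, 1, 1, 4, 2, 2], [1, 3, 1, 2, 2, 1, 4], [1, 3, 1, 2, 2, 4, 1], [1, 3, 1, 2, 4, 2, 1],
   [1, 3, 1, 4, 1, 2, 2], [1, 3, 1, 4, 2, 2, 1], [1, 3, 2, 1, 2, 1, 4], [1, 3, 2, 1, 2, 4, 1],
   [1, 3, 2, 1, 4, 2, 1], [1, 3, 2, 2, 1, 1, 4], [1, 3, 2, 2, 1, 4, 1], [1, 3, 2, 2, 4, 1, 1],
   [1, 3, 2, 4, 1, 2, 1], [1, 3, 2, 4, 2, 1, 1], [1, 3, 4, 1, 1, 2, 2], [1, 3, 4, 1, 2, 2, 1],
   [1, 3, 4, 2, 1, 2, 1], [1, 3, 4, 2, 2, 1, 1], [1, 4, 1, 1, 2, 2, 3], [1, 4, 1, 1, 2, 3, 2],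
   [1, 4, 1, 1, 3, 2, 2], [1, 4, 1, 2, 1, 2, 3], [1, 4, 1, 2, 1, 3, 2], [1, 4, 1, 2, 2, 1, 3],
   [1, 4, 2, 2, 1, 1, 3], [1, 4, 2, 2, 3, 1, 1], [1, 4, 2, 3, 1, 2, 1], [1, 4, 2, 3, 2, 1, 1],
   [1, 4, 3, 1, 1, 2, 2], [1, 4, 3, 1, 2, 2, 1], [1, 4, 3, 2, 1, 2, 1], [1, 4, 3, 2, 2, 1, 1],
   [2, 1, 2, 1, 1, 3, 4], [2, 1, 2, 1, 1, 4, 3], [2, 1, 2, 1, 4, 1, 3], [2, 1, 2, 3, 1, 1, 4],
   [2, 1, 2, 3, 1, 4, 1], [2, 1, 2, 3, 4, 1, 1], [2, 1, 2, 4, 1, 1, 3], [2, 1, 2, 4, 3, 1, 1],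
   [2, 1, 3, 1, 2, 1, 4], [2, 1, 3, 1, 2, 4, 1], [2, 1, 3, 1, 4, 2, 1], [2, 1, 3, 2, 1, 1, 4],
   [2, 1, 3, 2, 1, 4, 1], [2, 1, 3, 2, 4, 1, 1], [2, 1, 3, 4, 1, 2, 1], [2, 1, 3, 4, 2, 1, 1],
   [2, 1, 4, 2, 1, 1, 3], [2, 1, 4, 2, 3, 1, 1], [2, 1, 4, 3, 1, 2, 1], [2, 1, 4, 3, 2, 1, 1],
   [2, 2, 1, 1, 1, 3, 4], [2, 2, 1, 1, 1, 4, 3], [2, 2, 1, 1, 4, 1, 3], [2, 2, 1, 3, 1, 1, 4],
   [2, 2, 1, 3, 1, 4, 1], [2, 2, 1, 3, 4, 1, 1], [2, 2, 1, 4, 1, 1, 3], [2, 2, 1, 4, 3, 1, 1],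
   [2, 2, 4, 1, 1, 1, 3], [2, 2, 4, 1, 3, 1, 1], [2, 4, 1, 2, 1, 1, 3], [2, 4, 1, 2, 3, 1, 1],
   [2, 4, 1, 3, 1, 2, 1], [2, 4, 1, 3, 2, 1, 1], [2, 4, 2, 1, 1, 1, 3], [2, 4, 2, 1, 3, 1, 1],
   [4, 1, 1, 1, 2, 2, 3], [4, 1, 1, 1, 2, 3, 2], [4, 1, 1, 1, 3, 2, 2], [4, 1, 1, 2, 1, 2, 3],
   [4, 1, 1, 2, 1, 3, 2], [4, 1, 1, 2, 2, 1, 3], [4, 1, 2, 2, 1, 1, 3], [4, 1, 2, 2, 3, 1, 1],
   [4, 1, 2, 3, 1, 2, 1], [4, 1, 2, 3, 2, 1, 1], [4, 1, 3, 1, 1, 2, 2], [4, 1, 3, 1, 2, 2, 1],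
   [4, 1, 3, 2, 1, 2, 1], [4, 1, 3, 2, 2, 1, 1], [4, 2, 1, 2, 1, 1, 3], [4, 2, 1, 2, 3, 1, 1],
   [4, 2, 1, 3, 1, 2, 1], [4, 2, 1, 3, 2, 1, 1], [4, 2, 2, 1, 1, 1, 3], [4, 2, 2, 1, 3, 1, 1]]

def cM : List (ℤ × List (Fin 15)) :=
  cps.map (fun p => (1, fac true p)) ++ cps.map (fun p => (-1, fac false p))

def dfs (T : List ℕ → Bool) : ℕ → List ℕ → List ℕ → Bool
  | 0, _, acc => T acc
  | n + 1, rem, acc => rem.dedup.all fun x => dfs T n (rem.erase x) (acc ++ [x])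

theorem dfs_spec (T : List ℕ → Bool) (n : ℕ) : ∀ rem acc : List ℕ, dfs T n rem acc = true →
    ∀ p : List ℕ, p.length = n → p.Perm rem → T (acc ++ p) = true := by
  induction n with
  | zero =>
    intro rem acc h p hp _
    obtain rfl := List.length_eq_zero_iff.1 hp
    simpa [dfs] using h
  | succ n ih =>
    intro rem acc h p hp hpr
    cases p with
    | nil => simp at hp
    | cons x q =>
      have hx : x ∈ rem := hpr.subset (by simp)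
      simp only [dfs, List.all_eq_true] at h
      have := ih _ _ (h x (List.mem_dedup.2 hx)) q (by simpa using hp)
        (List.cons_perm_iff_perm_erase.1 hpr).2
      simpa using this

def leaf (p : List ℕ) : Bool :=
  [true, false].all fun a => decide (Srt (fac a p)) && decide (evM alp (bdT (fac a p)) % 2 = 0)

theorem dfs_ok : dfs leaf 7 lam [] = true := by decide +kernel

theorem cps_ok : cps.all (fun p => decide (p.Perm lam)) = true := by decide +kernel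

theorem srt_ok : (bdM cM).all (fun p => decide (Srt p.2)) = true := by decide +kernel

theorem xor_ok : xorM key (bdM cM) = 0 := by decide +kernel

theorem ev_ok : evM alp (bdM cM) % 4 = 2 := by decide +kernel

theorem leaf_of_perm {p : List ℕ} (hp : p.Perm lam) (a : Bool) :
    Srt (fac a p) ∧ evM alp (bdT (fac a p)) % 2 = 0 := by
  have := dfs_spec leaf 7 lam [] dfs_ok p (by simpa [lam] using hp.length_eq) hp
  simp only [leaf, List.nil_append, List.all_eq_true, Bool.and_eq_true, decide_eq_true_eq] at this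
  exact this a (by cases a <;> simp)

theorem length_fac (a : Bool) (p : List ℕ) : (fac a p).length = 7 := by
  cases a <;> simp [fac, ps]

theorem not_noTwo_KK : ¬ NoTwo KK := by
  refine not_noTwo KK alp (toC cM) (toC_mem ?_) ?_ ?_ ?_
  · intro q hq
    have h1 := cps_ok
    simp only [List.all_eq_true, decide_eq_true_eq] at h1
    simp only [cM, List.mem_append, List.mem_map] at hq
    rcases hq with ⟨p, hp, rfl⟩ | ⟨p, hp, rfl⟩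
    · exact ⟨(leaf_of_perm (h1 p hp) true).1, _, ⟨p, h1 p hp, true, rfl⟩, fun v hv => hv⟩
    · exact ⟨(leaf_of_perm (h1 p hp) false).1, _, ⟨p, h1 p hp, false, rfl⟩, fun v hv => hv⟩
  · intro l
    rw [bd_toC]
    refine toC_even key Srt key_inj _ ?_ xor_ok l
    have h1 := srt_ok
    simpa only [List.all_eq_true, decide_eq_true_eq] using h1
  · rw [bd_toC, ext_toC]; exact ev_ok
  · rintro l hl ⟨U, ⟨p, hp, a, rfl⟩, hU⟩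
    by_cases h7 : l.length = 7
    · have hnd : l.Nodup := hl.imp ne_of_lt
      have hperm : l.Perm (fac a p) :=
        (List.subperm_of_subset hnd hU).perm_of_length_le (by rw [length_fac, h7])
      have : l = fac a p := hperm.eq_of_pairwise (fun a b _ _ h1 h2 => absurd h1 h2.not_gt) hl
        (leaf_of_perm hp a).1
      rw [this, bd_gen_toC, ext_toC]
      exact Int.dvd_of_emod_eq_zero (leaf_of_perm hp a).2
    · have : ext alp (bd (gen l)) ∈ (⊥ : Submodule ℤ ℤ) := by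
        refine map_mem _ _ (fun m hm => ?_) (bd_gen_mem l)
        have : m.length ≠ 6 := by omega
        simp [alp, this]
      rw [Submodule.mem_bot] at this
      simp [this]

end Pool.Agent.P.MP_22a609_co
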