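import Pool.Agent.P.MP_22a609_co.Cert

namespace Pool.Agent.P.MP_22a609_co

def blk (p : List ℕ) (t : Fin 14) : ℕ := ((ps p).filter fun j => decide (j.val ≤ t.val)).length

def leaf2 (p : List ℕ) : Bool :=
  decide ((0 : Fin 15) ∉ ps p) && decide ((14 : Fin 15) ∉ ps p) &&
    decide (Multiset.map (fun a => (Finset.univ.filter (fun z => blk p z = a)).card)
      (Finset.univ.image (blk p)).val = (lam : Multiset ℕ))

theorem dfs2_ok : dfs leaf2 7 lam [] = true := by decide +kernel

theorem leaf2_of_perm {p : List ℕ} (hp : p.Perm lam) : (0 : Fin 15) ∉ ps p ∧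
    (14 : Fin 15) ∉ ps p ∧ Multiset.map (fun a => (Finset.univ.filter (fun z => blk p z = a)).card)
      (Finset.univ.image (blk p)).val = (lam : Multiset ℕ) := by
  have := dfs_spec leaf2 7 lam [] dfs2_ok p (by simpa [lam] using hp.length_eq) hp
  simpa only [leaf2, List.nil_append, Bool.and_eq_true, decide_eq_true_eq, and_assoc] using this

end Pool.Agent.P.MP_22a609_co
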