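import Mathlib

namespace Pool.Agent.P.MP_22a609_co

open Finsupp

abbrev C (Y : Type) : Type := List Y →₀ ℤ

variable {Y Z : Type}

noncomputable def gen (l : List Y) : C Y := Finsupp.single l 1

noncomputable def ext {M : Type} [AddCommGroup M] (f : List Y → M) : C Y →ₗ[ℤ] M :=
  Finsupp.linearCombination ℤ f

@[simp] theorem ext_gen {M : Type} [AddCommGroup M] (f : List Y → M) (l : List Y) :
    ext f (gen l) = f l := by
  simp [ext, gen]

noncomputable def cone (x : Y) : C Y →ₗ[ℤ] C Y := ext (fun l => gen (x :: l))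

@[simp] theorem cone_gen (x : Y) (l : List Y) : cone x (gen l) = gen (x :: l) := by
  simp [cone]

noncomputable def bdL : List Y → C Y
  | [] => 0
  | x :: l => gen l - cone x (bdL l)

noncomputable def bd : C Y →ₗ[ℤ] C Y := ext bdL

theorem bd_gen (l : List Y) : bd (gen l) = bdL l := by simp [bd]

@[simp] theorem bd_nil : bd (gen ([] : List Y)) = 0 := by simp [bd, bdL]

theorem bd_cons (x : Y) (l : List Y) : bd (gen (x :: l)) = gen l - cone x (bd (gen l)) := by
  simp [bd, bdL]

noncomputable def push (f : Y → Z) : C Y →ₗ[ℤ] C Z := ext (fun l => gen (l.map f))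

@[simp] theorem push_gen (f : Y → Z) (l : List Y) : push f (gen l) = gen (l.map f) := by
  simp [push]

theorem lhom_ext {M : Type} [AddCommGroup M] {S T : C Y →ₗ[ℤ] M}
    (h : ∀ l, S (gen l) = T (gen l)) (c : C Y) : S c = T c := by
  have : S = T := by
    apply Finsupp.lhom_ext'
    intro l
    apply LinearMap.ext_ring
    exact h l
  rw [this]

theorem bd_cone (x : Y) (c : C Y) : bd (cone x c) = c - cone x (bd c) := by
  have := lhom_ext (S := bd ∘ₗ cone x) (T := LinearMap.id - cone x ∘ₗ bd) (fun l => by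
    simp [bd_cons]) c
  simpa using this

theorem bd_bd (c : C Y) : bd (bd c) = 0 := by
  have := lhom_ext (S := (bd : C Y →ₗ[ℤ] C Y) ∘ₗ bd) (T := 0) (fun l => by
    cases l with
    | nil => simp
    | cons x l =>
      have key : ∀ l : List Y, bd (bd (gen l)) = 0 := by
        intro l
        induction l with
        | nil => simp
        | cons y l ih => rw [bd_cons, map_sub, bd_cone, ih]; simp
      simpa using key (x :: l)) c
  simpa using this

theorem push_cone (f : Y → Z) (x : Y) (c : C Y) : push f (cone x c) = cone (f x) (push f c) := by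
  have := lhom_ext (S := push f ∘ₗ cone x) (T := cone (f x) ∘ₗ push f) (fun l => by simp) c
  simpa using this

theorem bd_push (f : Y → Z) (c : C Y) : bd (push f c) = push f (bd c) := by
  have := lhom_ext (S := bd ∘ₗ push f) (T := push f ∘ₗ bd) (fun l => by
    induction l with
    | nil => simp
    | cons y l ih =>
      simp only [LinearMap.comp_apply, push_gen, List.map_cons] at ih ⊢
      rw [bd_cons, bd_cons, map_sub, push_cone, ih, push_gen]) c
  simpa using this

theorem push_push {W : Type} (f : Y → Z) (g : Z → W) (c : C Y) :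
    push g (push f c) = push (g ∘ f) c := by
  have := lhom_ext (S := push g ∘ₗ push f) (T := push (g ∘ f)) (fun l => by simp) c
  simpa using this

/-- chains supported on lists satisfying `P` -/
def Ch (P : List Y → Prop) : Submodule ℤ (C Y) := Finsupp.supported ℤ ℤ {l | P l}

theorem gen_mem {P : List Y → Prop} {l : List Y} (h : P l) : gen l ∈ Ch P :=
  Finsupp.single_mem_supported ℤ 1 h

theorem mem_Ch {P : List Y → Prop} {c : C Y} : c ∈ Ch P ↔ ∀ l, c l ≠ 0 → P l := by
  unfold Ch
  rw [Finsupp.mem_supported']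
  constructor
  · intro h l hl
    by_contra hn
    exact hl (h l hn)
  · intro h l hl
    by_contra hn
    exact hl (h l hn)

theorem Ch_mono {P Q : List Y → Prop} (h : ∀ l, P l → Q l) : Ch P ≤ Ch Q := by
  intro c hc
  rw [mem_Ch] at hc ⊢
  exact fun l hl => h l (hc l hl)

theorem map_mem {M : Type} [AddCommGroup M] {P : List Y → Prop} (T : C Y →ₗ[ℤ] M)
    (N : Submodule ℤ M) (h : ∀ l, P l → T (gen l) ∈ N) {c : C Y} (hc : c ∈ Ch P) : T c ∈ N := by
  unfold Ch at hc
  rw [Finsupp.supported_eq_span_single] at hc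
  have : Submodule.span ℤ ((fun i => Finsupp.single i (1 : ℤ)) '' {l | P l}) ≤ N.comap T := by
    rw [Submodule.span_le]
    rintro _ ⟨l, hl, rfl⟩
    exact h l hl
  exact this hc

theorem map_congr {M : Type} [AddCommGroup M] {P : List Y → Prop} (S T : C Y →ₗ[ℤ] M)
    (h : ∀ l, P l → S (gen l) = T (gen l)) {c : C Y} (hc : c ∈ Ch P) : S c = T c := by
  have := map_mem (S - T) ⊥ (fun l hl => by simp [h l hl]) hc
  simpa [sub_eq_zero] using this

theorem mem_Ch_support (c : C Y) : c ∈ Ch (fun l => c l ≠ 0) := mem_Ch.2 fun _ h => h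

theorem cone_mem {P Q : List Y → Prop} (x : Y) (h : ∀ l, P l → Q (x :: l)) {c : C Y}
    (hc : c ∈ Ch P) : cone x c ∈ Ch Q :=
  map_mem _ _ (fun l hl => by rw [cone_gen]; exact gen_mem (h l hl)) hc

theorem push_mem {P : List Y → Prop} {Q : List Z → Prop} (f : Y → Z)
    (h : ∀ l, P l → Q (l.map f)) {c : C Y} (hc : c ∈ Ch P) : push f c ∈ Ch Q :=
  map_mem _ _ (fun l hl => by rw [push_gen]; exact gen_mem (h l hl)) hc

theorem bd_gen_mem (l : List Y) :
    bd (gen l) ∈ Ch (fun m => m.Sublist l ∧ m.length + 1 = l.length) := by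
  induction l with
  | nil => simp
  | cons x l ih =>
    rw [bd_cons]
    apply Submodule.sub_mem
    · exact gen_mem ⟨List.sublist_cons_self x l, rfl⟩
    · exact cone_mem x (fun m hm => ⟨hm.1.cons_cons x, by simp [hm.2]⟩) ih

/-- hereditary predicates -/
def Her (P : List Y → Prop) : Prop := ∀ l m : List Y, m.Sublist l → P l → P m

theorem bd_mem {P : List Y → Prop} (hP : Her P) {c : C Y} (hc : c ∈ Ch P) : bd c ∈ Ch P :=
  map_mem _ _ (fun l hl => Ch_mono (fun m hm => hP l m hm.1 hl) (bd_gen_mem l)) hc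

theorem two_mem {P : List Y → Prop} {c : C Y} (hc : (2 : ℤ) • c ∈ Ch P) : c ∈ Ch P := by
  rw [mem_Ch] at hc ⊢
  intro l hl
  apply hc l
  simpa using hl

theorem bd_of_two {z c : C Y} (h : bd c = (2 : ℤ) • z) : bd z = 0 := by
  have h1 : (2 : ℤ) • bd z = 0 := by rw [← map_smul, ← h, bd_bd]
  ext l
  have := congrArg (fun w => w l) h1
  simpa using this

/-- the prism operator -/
noncomputable def prismL (u v : Y → Z) : List Y → C Z
  | [] => 0
  | x :: l => gen (u x :: (x :: l).map v) - cone (u x) (prismL u v l)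

noncomputable def prism (u v : Y → Z) : C Y →ₗ[ℤ] C Z := ext (prismL u v)

theorem prism_cone (u v : Y → Z) (x : Y) (c : C Y) :
    prism u v (cone x c) = cone (u x) (cone (v x) (push v c)) - cone (u x) (prism u v c) := by
  have := lhom_ext (S := prism u v ∘ₗ cone x)
    (T := cone (u x) ∘ₗ cone (v x) ∘ₗ push v - cone (u x) ∘ₗ prism u v) (fun l => by
      simp [prism, prismL]) c
  simpa using this

theorem bd_prism (u v : Y → Z) (c : C Y) :
    bd (prism u v c) + prism u v (bd c) = push v c - push u c := by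
  have := lhom_ext (S := bd ∘ₗ prism u v + prism u v ∘ₗ bd) (T := push v - push u) (fun l => by
    induction l with
    | nil => simp [prism, prismL]
    | cons x l ih =>
      simp only [LinearMap.add_apply, LinearMap.comp_apply, LinearMap.sub_apply] at ih ⊢
      have ih' : bd (prism u v (gen l)) = push v (gen l) - push u (gen l)
          - prism u v (bd (gen l)) := by rw [← ih]; abel
      rw [bd_cons, ← cone_gen, prism_cone, map_sub, map_sub, prism_cone, bd_cone, bd_cone,
        bd_cone, ih', push_cone, push_cone, bd_push]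
      simp only [map_sub]
      abel) c
  simpa using this

theorem prism_gen_mem (u v : Y → Z) (l : List Y) :
    prism u v (gen l) ∈ Ch (fun m => ∀ y ∈ m, ∃ x ∈ l, y = u x ∨ y = v x) := by
  induction l with
  | nil => simp [prism, prismL]
  | cons x l ih =>
    have : prism u v (gen (x :: l)) = gen (u x :: (x :: l).map v) - cone (u x) (prism u v (gen l)) := by
      simp [prism, prismL]
    rw [this]
    apply Submodule.sub_mem
    · apply gen_mem
      intro y hy
      rcases List.mem_cons.1 hy with rfl | hy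
      · exact ⟨x, by simp, Or.inl rfl⟩
      · obtain ⟨w, hw, rfl⟩ := List.mem_map.1 hy
        exact ⟨w, hw, Or.inr rfl⟩
    · refine cone_mem _ (fun m hm => ?_) ih
      intro y hy
      rcases List.mem_cons.1 hy with rfl | hy
      · exact ⟨x, by simp, Or.inl rfl⟩
      · obtain ⟨w, hw, h⟩ := hm y hy
        exact ⟨w, List.mem_cons_of_mem _ hw, h⟩

/-- boundaries of chains supported on `P` -/
noncomputable def Bd (P : List Y → Prop) : Submodule ℤ (C Y) := (Ch P).map bd

theorem mem_Bd {P : List Y → Prop} {z : C Y} : z ∈ Bd P ↔ ∃ b ∈ Ch P, bd b = z := Iff.rfl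

theorem push_Bd {P : List Y → Prop} {Q : List Z → Prop} (f : Y → Z)
    (h : ∀ l, P l → Q (l.map f)) {c : C Y} (hc : c ∈ Bd P) : push f c ∈ Bd Q := by
  obtain ⟨b, hb, rfl⟩ := hc
  exact ⟨push f b, push_mem f h hb, bd_push f b⟩

theorem steps (u : ℕ → Y → Z) (Q : List Z → Prop) (z : C Y) (hz : bd z = 0) (N : ℕ)
    (h : ∀ i < N, ∀ l, z l ≠ 0 → ∀ m : List Z,
      (∀ y ∈ m, ∃ x ∈ l, y = u i x ∨ y = u (i + 1) x) → Q m) :
    push (u N) z - push (u 0) z ∈ Bd Q := by
  induction N with
  | zero => simp
  | succ N ih =>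
    have h1 := ih (fun i hi => h i (by omega))
    have h2 : push (u (N + 1)) z - push (u N) z ∈ Bd Q := by
      refine ⟨prism (u N) (u (N + 1)) z, ?_, ?_⟩
      · refine map_mem _ _ (fun l hl => Ch_mono (fun m hm => h N (by omega) l hl m hm)
          (prism_gen_mem _ _ l)) (mem_Ch_support z)
      · have := bd_prism (u N) (u (N + 1)) z
        rw [hz] at this
        simpa using this
    have := Submodule.add_mem _ h1 h2
    convert this using 1
    abel

section carrier

open Classical in
noncomputable def fill (N : Submodule ℤ (C Z)) (c : C Z) : C Z :=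
  if h : ∃ b ∈ N, bd b = c then h.choose else 0

theorem fill_spec {N : Submodule ℤ (C Z)} {c : C Z} (h : ∃ b ∈ N, bd b = c) :
    fill N c ∈ N ∧ bd (fill N c) = c := by
  unfold fill
  rw [dif_pos h]
  exact h.choose_spec

noncomputable def stage (A : List Y → Submodule ℤ (C Z)) (D : C Y →ₗ[ℤ] C Z) (s : ℤ) (b0 : C Z) :
    ℕ → List Y → C Z
  | 0 => fun _ => b0
  | n + 1 => fun l => fill (A l) (D (gen l) + s • ext (stage A D s b0 n) (bd (gen l)))

theorem carrier (G : List Y → Prop) (hG : Her G) (A : List Y → Submodule ℤ (C Z))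
    (hmono : ∀ l m, G l → m.Sublist l → A m ≤ A l)
    (hac : ∀ l, G l → l ≠ [] → ∀ c ∈ A l, bd c = 0 → ∃ b ∈ A l, bd b = c)
    (D : C Y →ₗ[ℤ] C Z) (s : ℤ) (hD : ∀ l, G l → D (gen l) ∈ A l)
    (hDs : ∀ l, G l → bd (D (gen l)) + s • D (bd (gen l)) = 0)
    (b0 : C Z) (hb0 : b0 ∈ A []) (hb0' : bd b0 = D (gen [])) :
    ∃ h : C Y →ₗ[ℤ] C Z, h (gen []) = b0 ∧ ∀ l, G l →
      h (gen l) ∈ A l ∧ bd (h (gen l)) = D (gen l) + s • h (bd (gen l)) := by
  set h : C Y →ₗ[ℤ] C Z := ext (fun l => stage A D s b0 l.length l) with hh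
  refine ⟨h, by simp [hh, stage], ?_⟩
  have key : ∀ n, ∀ l : List Y, l.length = n → G l →
      h (gen l) ∈ A l ∧ bd (h (gen l)) = D (gen l) + s • h (bd (gen l)) := by
    intro n
    induction n with
    | zero =>
      intro l hl _
      obtain rfl := List.length_eq_zero_iff.1 hl
      simp [hh, stage, hb0, hb0']
    | succ n ih =>
      intro l hl hGl
      have hne : l ≠ [] := by rintro rfl; simp at hl
      have e1 : ext (stage A D s b0 n) (bd (gen l)) = h (bd (gen l)) := by
        refine map_congr _ _ (fun m hm => ?_) (bd_gen_mem l)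
        have : m.length = n := by omega
        simp [hh, this]
      have e2 : h (gen l) = fill (A l) (D (gen l) + s • h (bd (gen l))) := by
        rw [← e1]
        simp [hh, hl, stage]
      rw [e2]
      apply fill_spec
      apply hac l hGl hne
      · refine Submodule.add_mem _ (hD l hGl) (Submodule.smul_mem _ _ ?_)
        refine map_mem _ _ (fun m hm => ?_) (bd_gen_mem l)
        exact hmono l m hGl hm.1 (ih m (by omega) (hG l m hm.1 hGl)).1
      · have e3 : (bd ∘ₗ h) (bd (gen l)) = (D + s • (h ∘ₗ bd)) (bd (gen l)) := by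
          refine map_congr _ _ (fun m hm => ?_) (bd_gen_mem l)
          simpa using (ih m (by omega) (hG l m hm.1 hGl)).2
        simp only [LinearMap.comp_apply, LinearMap.add_apply, LinearMap.smul_apply, bd_bd,
          map_zero, smul_zero, add_zero] at e3
        rw [map_add, map_smul, e3]
        exact hDs l hGl
  exact fun l hl => key _ l rfl hl

/-- a chain map killing the empty list and with acyclic carriers sends cycles to boundaries -/
theorem carrier_null (G : List Y → Prop) (hG : Her G) (A : List Y → Submodule ℤ (C Z))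
    (Q : List Z → Prop)
    (hmono : ∀ l m, G l → m.Sublist l → A m ≤ A l)
    (hac : ∀ l, G l → l ≠ [] → ∀ c ∈ A l, bd c = 0 → ∃ b ∈ A l, bd b = c)
    (hQ : ∀ l, G l → A l ≤ Ch Q)
    (D : C Y →ₗ[ℤ] C Z) (hD : ∀ l, G l → D (gen l) ∈ A l)
    (hDs : ∀ c, bd (D c) = D (bd c)) (h0 : D (gen []) = 0)
    {z : C Y} (hz : z ∈ Ch G) (hz' : bd z = 0) : D z ∈ Bd Q := by
  obtain ⟨h, -, hh⟩ := carrier G hG A hmono hac D (-1) hD (fun l _ => by simp [hDs]) 0
    (Submodule.zero_mem _) (by simp [h0])
  refine ⟨h z, map_mem _ _ (fun l hl => hQ l hl (hh l hl).1) hz, ?_⟩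
  have := map_congr (bd ∘ₗ h) (D - h ∘ₗ bd) (fun l hl => by
    simpa [sub_eq_add_neg] using (hh l hl).2) hz
  simpa [hz'] using this

end carrier

end Pool.Agent.P.MP_22a609_co
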