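import Pool.Agent.P.MP_22a609_co.Chains

namespace Pool.Agent.P.MP_22a609_co

open Finsupp

section small

variable {E : Type} [PseudoMetricSpace E]

/-- lists inside `A` whose entries are pairwise at distance `< ε` -/
def Small (A : Set E) (ε : ℝ) (l : List E) : Prop :=
  (∀ x ∈ l, x ∈ A) ∧ ∀ x ∈ l, ∀ y ∈ l, dist x y < ε

theorem Small.her (A : Set E) (ε : ℝ) : Her (Small A ε) := fun _ _ h hl =>
  ⟨fun x hx => hl.1 x (h.subset hx), fun x hx y hy => hl.2 x (h.subset hx) y (h.subset hy)⟩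

theorem Small.mono {A B : Set E} {ε δ : ℝ} (hAB : A ⊆ B) (h : ε ≤ δ) (l : List E)
    (hl : Small A ε l) : Small B δ l :=
  ⟨fun x hx => hAB (hl.1 x hx), fun x hx y hy => (hl.2 x hx y hy).trans_le h⟩

end small

section star

variable {E : Type} [NormedAddCommGroup E] [NormedSpace ℝ E]

theorem star_acyclic {A : Set E} {v : E} (hv : v ∈ A) (hA : StarConvex ℝ v A) {ε : ℝ}
    (hε : 0 < ε) {c : C E} (hc : c ∈ Ch (Small A ε)) (hc' : bd c = 0) :
    ∃ b ∈ Ch (Small A ε), bd b = c := by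
  classical
  have hev : ∀ᶠ η : ℝ in nhds 0, ∀ l ∈ c.support, ∀ x ∈ l.toFinset, ∀ y ∈ l.toFinset,
      dist x y + η * ‖v - y‖ < ε := by
    rw [Filter.eventually_all_finset]
    intro l hl
    rw [Filter.eventually_all_finset]
    intro x hx
    rw [Filter.eventually_all_finset]
    intro y hy
    have h1 : dist x y < ε := (mem_Ch.1 hc l (Finsupp.mem_support_iff.1 hl)).2 x
      (List.mem_toFinset.1 hx) y (List.mem_toFinset.1 hy)
    have h2 : Continuous (fun η : ℝ => dist x y + η * ‖v - y‖) := by fun_prop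
    exact h2.continuousAt.eventually_lt continuousAt_const (by simpa using h1)
  obtain ⟨N, hN, hNpos⟩ : ∃ N : ℕ, (∀ l ∈ c.support, ∀ x ∈ l.toFinset, ∀ y ∈ l.toFinset,
      dist x y + (1 / (N : ℝ)) * ‖v - y‖ < ε) ∧ 0 < N :=
    (((tendsto_one_div_atTop_nhds_zero_nat (𝕜 := ℝ)).eventually hev).and
      (Filter.eventually_gt_atTop 0)).exists
  have hNr : (0 : ℝ) < N := by exact_mod_cast hNpos
  set u : ℕ → E → E := fun i x => x + ((i : ℝ) / N) • (v - x) with hu
  have hmem : ∀ i ≤ N, ∀ x ∈ A, u i x ∈ A := by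
    intro i hi x hx
    have hi' : (i : ℝ) / N ≤ 1 := by
      rw [div_le_one hNr]; exact_mod_cast hi
    have := hA hx (a := (i : ℝ) / N) (b := 1 - (i : ℝ) / N) (by positivity) (by linarith)
      (by ring)
    convert this using 1
    simp only [hu, smul_sub, sub_smul, one_smul]
    abel
  have hdist : ∀ i ≤ N, ∀ j : ℕ, |(i : ℝ) - j| ≤ 1 → ∀ x y : E,
      dist (u i x) (u j y) ≤ dist x y + (1 / (N : ℝ)) * ‖v - y‖ := by
    intro i hi j hij x y
    have hi' : (i : ℝ) / N ≤ 1 := by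
      rw [div_le_one hNr]; exact_mod_cast hi
    have e : u i x - u j y = (1 - (i : ℝ) / N) • (x - y) + (((i : ℝ) - j) / N) • (v - y) := by
      simp only [hu, smul_sub, sub_smul, one_smul, sub_div]
      abel
    rw [dist_eq_norm, dist_eq_norm, e]
    refine (norm_add_le _ _).trans (add_le_add ?_ ?_)
    · rw [norm_smul, Real.norm_eq_abs, abs_of_nonneg (by linarith)]
      have : 0 ≤ (i : ℝ) / N := by positivity
      nlinarith [norm_nonneg (x - y)]
    · rw [norm_smul, Real.norm_eq_abs, abs_div, abs_of_pos hNr]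
      gcongr
  have h1 := steps u (Small A ε) c hc' N (by
    intro i hi l hl m hm
    have hl' := mem_Ch.1 hc l hl
    constructor
    · intro y hy
      obtain ⟨x, hx, rfl | rfl⟩ := hm y hy
      · exact hmem i hi.le x (hl'.1 x hx)
      · exact hmem (i + 1) hi x (hl'.1 x hx)
    · intro y hy y' hy'
      obtain ⟨x, hx, h⟩ := hm y hy
      obtain ⟨x', hx', h'⟩ := hm y' hy'
      have := hN l (Finsupp.mem_support_iff.2 hl) x (List.mem_toFinset.2 hx) x'
        (List.mem_toFinset.2 hx')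
      rcases h with rfl | rfl <;> rcases h' with rfl | rfl
      · exact (hdist i hi.le i (by simp) x x').trans_lt this
      · exact (hdist i hi.le (i + 1) (by simp) x x').trans_lt this
      · exact (hdist (i + 1) hi i (by simp) x x').trans_lt this
      · exact (hdist (i + 1) hi (i + 1) (by simp) x x').trans_lt this)
  have e0 : push (u 0) c = c := by
    have := lhom_ext (S := push (u 0)) (T := LinearMap.id) (fun l => by simp [hu]) c
    simpa using this
  have eN : u N = fun _ => v := by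
    funext x
    simp [hu, div_self hNr.ne']
  rw [e0, eN] at h1
  have h2 : push (fun _ : E => v) c ∈ Bd (Small A ε) := by
    refine ⟨cone v (push (fun _ : E => v) c), ?_, ?_⟩
    · refine cone_mem (P := fun l => ∀ x ∈ l, x = v) v (fun l hl => ?_) ?_
      · have : ∀ x ∈ v :: l, x = v := by
          intro x hx
          rcases List.mem_cons.1 hx with rfl | hx
          · rfl
          · exact hl x hx
        exact ⟨fun x hx => by rw [this x hx]; exact hv, fun x hx y hy => by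
          rw [this x hx, this y hy]; simpa using hε⟩
      · exact push_mem _ (fun l _ => by simp) (mem_Ch_support c)
    · rw [bd_cone, bd_push, hc']; simp
  have := Submodule.sub_mem _ h2 h1
  rw [← mem_Bd]
  simpa using this

end star

variable {V : Type} [Fintype V]

/-- closed geometric simplex on a vertex set -/
def Spx (U : Set V) : Set (V → ℝ) :=
  {a | (∀ v, 0 ≤ a v) ∧ ∑ v, a v = 1 ∧ ∀ v, a v ≠ 0 → v ∈ U}

/-- geometric realisation of the complex generated by the sets in `F` -/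
def Rea (F : Set (Set V)) : Set (V → ℝ) := {a | ∃ U ∈ F, a ∈ Spx U}

/-- lists of vertices inside one of the sets in `F` -/
def InK {W : Type} (F : Set (Set W)) (l : List W) : Prop := ∃ U ∈ F, ∀ v ∈ l, v ∈ U

theorem InK.her {W : Type} (F : Set (Set W)) : Her (InK F) := fun _ _ h ⟨U, hU, hl⟩ =>
  ⟨U, hU, fun v hv => hl v (h.subset hv)⟩

theorem Spx_mono {U U' : Set V} (h : U ⊆ U') : Spx U ⊆ Spx U' := fun _ ha =>
  ⟨ha.1, ha.2.1, fun v hv => h (ha.2.2 v hv)⟩

theorem convex_Spx (U : Set V) : Convex ℝ (Spx U) := by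
  intro a ha b hb s t hs ht hst
  refine ⟨fun v => ?_, ?_, fun v hv => ?_⟩
  · have := ha.1 v
    have := hb.1 v
    simp only [Pi.add_apply, Pi.smul_apply, smul_eq_mul]
    positivity
  · simp only [Pi.add_apply, Pi.smul_apply, smul_eq_mul]
    rw [Finset.sum_add_distrib, ← Finset.mul_sum, ← Finset.mul_sum, ha.2.1, hb.2.1]
    linarith
  · by_contra hn
    have h1 : a v = 0 := by by_contra h; exact hn (ha.2.2 v h)
    have h2 : b v = 0 := by by_contra h; exact hn (hb.2.2 v h)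
    simp [h1, h2] at hv

theorem single_mem_Spx [DecidableEq V] {U : Set V} {v : V} (hv : v ∈ U) :
    (Pi.single v 1 : V → ℝ) ∈ Spx U := by
  refine ⟨fun w => ?_, by simp, fun w hw => ?_⟩
  · rw [Pi.single_apply]; split_ifs <;> norm_num
  · rw [Pi.single_apply] at hw
    split_ifs at hw with h
    · rwa [h]
    · simp at hw

theorem isCompact_Spx (U : Set V) : IsCompact (Spx U) := by
  have h1 : IsClosed {a : V → ℝ | ∀ v, v ∉ U → a v = 0} := by
    simp only [Set.ofPred_forall]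
    exact isClosed_iInter fun v => isClosed_iInter fun _ =>
      isClosed_eq (continuous_apply v) continuous_const
  have := (isCompact_stdSimplex ℝ V).inter_right h1
  convert this using 1
  ext a
  simp only [Spx, stdSimplex, Set.mem_ofPred_eq, Set.mem_inter_iff]
  constructor
  · rintro ⟨h1, h2, h3⟩
    exact ⟨⟨h1, h2⟩, fun v hv => by by_contra h; exact hv (h3 v h)⟩
  · rintro ⟨⟨h1, h2⟩, h3⟩
    exact ⟨h1, h2, fun v hv => by by_contra h; exact hv (h3 v h)⟩

theorem isCompact_Rea (F : Set (Set V)) : IsCompact (Rea F) := by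
  have : Rea F = ⋃ U ∈ F, Spx U := by
    ext a; simp [Rea]
  rw [this]
  exact (Set.toFinite F).isCompact_biUnion fun U _ => isCompact_Spx U

theorem exists_tau {ε : ℝ} (hε : 0 < ε) : ∃ τ : C V →ₗ[ℤ] C (V → ℝ), τ (gen []) = gen [] ∧
    (∀ l, τ (gen l) ∈ Ch (Small (Spx {v | v ∈ l}) ε)) ∧ ∀ c, bd (τ c) = τ (bd c) := by
  classical
  obtain ⟨h, h0, hh⟩ := carrier (fun _ : List V => True) (fun _ _ _ _ => trivial)
    (fun l => Ch (Small (Spx {v | v ∈ l}) ε))
    (fun l m _ hm => Ch_mono (Small.mono (Spx_mono fun v hv => hm.subset hv) le_rfl))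
    (fun l _ hl c hc hc' => by
      obtain ⟨v, hv⟩ := List.exists_mem_of_ne_nil l hl
      have hv' : (Pi.single v 1 : V → ℝ) ∈ Spx {v | v ∈ l} := single_mem_Spx hv
      exact star_acyclic hv' ((convex_Spx _).starConvex hv') hε hc hc')
    0 1 (fun l _ => Submodule.zero_mem _) (fun l _ => by simp) (gen [])
    (gen_mem ⟨by simp, by simp⟩) (by simp)
  refine ⟨h, h0, fun l => (hh l trivial).1, fun c => ?_⟩
  have := lhom_ext (S := bd ∘ₗ h) (T := h ∘ₗ bd) (fun l => by simpa using (hh l trivial).2) c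
  simpa using this

theorem exists_phi [Nonempty V] : ∃ φ : (V → ℝ) → V, ∀ a b : V → ℝ, ∑ v, a v = 1 →
    dist a b < 1 / Fintype.card V → b (φ a) ≠ 0 := by
  have : ∀ a : V → ℝ, ∃ v, ∀ w, a w ≤ a v := fun a => Finite.exists_max a
  choose φ hφ using this
  refine ⟨φ, fun a b ha hab hb => ?_⟩
  have h1 : (1 : ℝ) ≤ Fintype.card V * a (φ a) := by
    calc (1 : ℝ) = ∑ v, a v := ha.symm
      _ ≤ ∑ _v : V, a (φ a) := Finset.sum_le_sum fun v _ => hφ a v
      _ = _ := by simp
  have h2 : dist (a (φ a)) (b (φ a)) ≤ dist a b := dist_le_pi_dist a b _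
  have hc : (0 : ℝ) < Fintype.card V := by exact_mod_cast Fintype.card_pos
  rw [hb, Real.dist_eq, sub_zero] at h2
  have h3 := (le_abs_self _).trans_lt (h2.trans_lt hab)
  rw [lt_div_iff₀ hc] at h3
  linarith

theorem phi_small {φ : (V → ℝ) → V} (hφ : ∀ a b : V → ℝ, ∑ v, a v = 1 →
    dist a b < 1 / Fintype.card V → b (φ a) ≠ 0) {F : Set (Set V)} (hF : F.Nonempty)
    (l : List (V → ℝ)) (hl : Small (Rea F) (1 / Fintype.card V) l) : InK F (l.map φ) := by
  cases l with
  | nil => obtain ⟨U, hU⟩ := hF; exact ⟨U, hU, by simp⟩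
  | cons b l =>
    obtain ⟨U, hU, hb⟩ := hl.1 b (by simp)
    refine ⟨U, hU, fun v hv => ?_⟩
    obtain ⟨a, ha, rfl⟩ := List.mem_map.1 hv
    obtain ⟨U', -, ha'⟩ := hl.1 a ha
    exact hb.2.2 _ (hφ a b ha'.2.1 (hl.2 a ha b (by simp)))

theorem sub_acyclic {W : Type} (l : List W) (hl : l ≠ []) (c : C W)
    (hc : c ∈ Ch (fun m => ∀ v ∈ m, v ∈ l)) (hc' : bd c = 0) :
    ∃ b ∈ Ch (fun m => ∀ v ∈ m, v ∈ l), bd b = c := by
  obtain ⟨v, hv⟩ := List.exists_mem_of_ne_nil l hl
  refine ⟨cone v c, cone_mem v (fun m hm w hw => ?_) hc, by rw [bd_cone, hc']; simp⟩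
  rcases List.mem_cons.1 hw with rfl | hw
  · exact hv
  · exact hm w hw

/-- a chain map carried by vertex sets is homotopic to the identity -/
theorem carried_id {W : Type} (F : Set (Set W)) (T : C W →ₗ[ℤ] C W) (h0 : T (gen []) = gen [])
    (hT : ∀ l, InK F l → T (gen l) ∈ Ch (fun m => ∀ v ∈ m, v ∈ l))
    (hbd : ∀ c, bd (T c) = T (bd c)) {z : C W} (hz : z ∈ Ch (InK F)) (hz' : bd z = 0) :
    T z - z ∈ Bd (InK F) := by
  have := carrier_null (InK F) (InK.her F) (fun l => Ch (fun m => ∀ v ∈ m, v ∈ l)) (InK F)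
    (fun l m _ hm => Ch_mono fun k hk v hv => hm.subset (hk v hv))
    (fun l _ hl c hc hc' => sub_acyclic l hl c hc hc')
    (fun l ⟨U, hU, hl⟩ => Ch_mono fun m hm => ⟨U, hU, fun v hv => hl v (hm v hv)⟩)
    (T - LinearMap.id) (fun l hl => Submodule.sub_mem _ (hT l hl) (gen_mem fun v hv => hv))
    (fun c => by simp [hbd]) (by simp [h0]) hz hz'
  simpa using this

theorem back_small {φ : (V → ℝ) → V} (hφ : ∀ a b : V → ℝ, ∑ v, a v = 1 →
    dist a b < 1 / Fintype.card V → b (φ a) ≠ 0) {F : Set (Set V)} {ε : ℝ} (hε : 0 < ε)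
    (hε' : ε ≤ 1 / Fintype.card V) (τ : C V →ₗ[ℤ] C (V → ℝ)) (h0 : τ (gen []) = gen [])
    (hτ : ∀ l, τ (gen l) ∈ Ch (Small (Spx {v | v ∈ l}) ε)) (hbd : ∀ c, bd (τ c) = τ (bd c))
    {z : C (V → ℝ)} (hz : z ∈ Ch (Small (Rea F) ε)) (hz' : bd z = 0) :
    τ (push φ z) - z ∈ Bd (Small (Rea F) ε) := by
  classical
  have hsupp : ∀ x ∈ Rea F, x ∈ Spx {v | x v ≠ 0} := fun x ⟨U, _, hx⟩ =>
    ⟨hx.1, hx.2.1, fun v hv => hv⟩
  have := carrier_null (Small (Rea F) ε) (Small.her _ _)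
    (fun l => Ch (Small {a | ∃ x ∈ l, a ∈ Spx {v | x v ≠ 0}} ε)) (Small (Rea F) ε)
    (fun l m _ hm => Ch_mono (Small.mono (fun a ha0 => by
      obtain ⟨x, hx, ha⟩ := ha0
      exact ⟨x, hm.subset hx, ha⟩) le_rfl))
    (fun l hl hne c hc hc' => by
      obtain ⟨x, hx⟩ := List.exists_mem_of_ne_nil l hne
      have hv : ∀ y ∈ l, (Pi.single (φ x) 1 : V → ℝ) ∈ Spx {v | y v ≠ 0} := fun y hy =>
        single_mem_Spx (hφ x y (hsupp x (hl.1 x hx)).2.1 ((hl.2 x hx y hy).trans_le hε'))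
      refine star_acyclic (v := Pi.single (φ x) 1) (by exact ⟨x, hx, hv x hx⟩) ?_ hε hc hc'
      intro a ⟨y, hy, ha⟩ s t hs ht hst
      exact ⟨y, hy, convex_Spx _ (hv y hy) ha hs ht hst⟩)
    (fun l hl => Ch_mono (Small.mono (fun a ha0 => by
      obtain ⟨x, hx, ha⟩ := ha0
      obtain ⟨U, hU, hx'⟩ := hl.1 x hx
      exact ⟨U, hU, Spx_mono (fun v hv => hx'.2.2 v hv) ha⟩) le_rfl))
    (τ ∘ₗ push φ - LinearMap.id) (fun l hl => by
      refine Submodule.sub_mem _ ?_ (gen_mem ⟨fun x hx => ⟨x, hx, hsupp x (hl.1 x hx)⟩, hl.2⟩)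
      simp only [LinearMap.comp_apply, push_gen]
      cases l with
      | nil => rw [List.map_nil, h0]; exact gen_mem ⟨by simp, by simp⟩
      | cons b l =>
        refine Ch_mono (Small.mono (fun a ha => ?_) le_rfl) (hτ _)
        refine ⟨b, by simp, Spx_mono (fun v hv => ?_) ha⟩
        obtain ⟨y, hy, rfl⟩ := List.mem_map.1 hv
        exact hφ y b (hsupp y (hl.1 y hy)).2.1 ((hl.2 y hy b (by simp)).trans_le hε'))
    (fun c => by simp [hbd, bd_push]) (by simp [h0]) hz hz'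
  simpa using this

/-- the combinatorial property: no homology class of order two -/
def NoTwo {W : Type} (F : Set (Set W)) : Prop :=
  ∀ z c : C W, z ∈ Ch (InK F) → c ∈ Ch (InK F) → bd c = (2 : ℤ) • z → z ∈ Bd (InK F)

open Classical in
noncomputable def amb {E E' : Type} [Inhabited E'] {A : Set E} (f : A → E') (x : E) : E' :=
  if h : x ∈ A then f ⟨x, h⟩ else default

theorem amb_mem {E E' : Type} [Inhabited E'] {A : Set E} (f : A → E') {x : E} (h : x ∈ A) :
    amb f x = f ⟨x, h⟩ := dif_pos h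

theorem amb_small {E E' : Type} [Inhabited E'] [PseudoMetricSpace E] [PseudoMetricSpace E']
    {A : Set E} (hA : IsCompact A) {B : Set E'} (f : C(A, B)) {ε : ℝ} (hε : 0 < ε) :
    ∃ δ > 0, ∀ l, Small A δ l → Small B ε (l.map (amb fun a => (f a : E'))) := by
  have : CompactSpace A := isCompact_iff_compactSpace.1 hA
  obtain ⟨δ, hδ, h⟩ := Metric.uniformContinuous_iff.1
    (CompactSpace.uniformContinuous_of_continuous f.continuous) ε hε
  refine ⟨δ, hδ, fun l hl => ⟨fun y hy => ?_, fun y hy y' hy' => ?_⟩⟩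
  · obtain ⟨x, hx, rfl⟩ := List.mem_map.1 hy
    rw [amb_mem _ (hl.1 x hx)]
    exact (f _).2
  · obtain ⟨x, hx, rfl⟩ := List.mem_map.1 hy
    obtain ⟨x', hx', rfl⟩ := List.mem_map.1 hy'
    rw [amb_mem _ (hl.1 x hx), amb_mem _ (hl.1 x' hx')]
    exact h (a := ⟨x, _⟩) (b := ⟨x', _⟩) (hl.2 x hx x' hx')

theorem push_congr {Y Z : Type} {P : List Y → Prop} {f g : Y → Z}
    (h : ∀ l, P l → ∀ x ∈ l, f x = g x) {c : C Y} (hc : c ∈ Ch P) : push f c = push g c :=
  map_congr _ _ (fun l hl => by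
    rw [push_gen, push_gen, List.map_congr_left (h l hl)]) hc

theorem amb_homotopic {E E' : Type} [Inhabited E'] [PseudoMetricSpace E] [PseudoMetricSpace E']
    {A : Set E} (hA : IsCompact A) {B : Set E'} {f g : C(A, B)} (hfg : f.Homotopic g) {ε : ℝ}
    (hε : 0 < ε) : ∃ δ > 0, ∀ z ∈ Ch (Small A δ), bd z = 0 →
      push (amb fun a => (g a : E')) z - push (amb fun a => (f a : E')) z ∈ Bd (Small B ε) := by
  have : CompactSpace A := isCompact_iff_compactSpace.1 hA
  obtain ⟨H⟩ := hfg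
  obtain ⟨δ, hδ, h⟩ := Metric.uniformContinuous_iff.1
    (CompactSpace.uniformContinuous_of_continuous H.continuous) ε hε
  obtain ⟨N, hN⟩ := exists_nat_one_div_lt hδ
  refine ⟨δ, hδ, fun z hz hz' => ?_⟩
  set u : ℕ → E → E' := fun i => amb fun a =>
    (H (Set.projIcc 0 1 zero_le_one ((i : ℝ) / (N + 1)), a) : E') with hu
  have hd : ∀ i j : ℕ, |(i : ℝ) - j| ≤ 1 → ∀ x y : E, x ∈ A → y ∈ A → dist x y < δ →
      dist (u i x) (u j y) < ε := by
    intro i j hij x y hx hy hxy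
    simp only [hu]
    rw [amb_mem _ hx, amb_mem _ hy]
    apply h
    rw [Prod.dist_eq, max_lt_iff]
    refine ⟨?_, hxy⟩
    refine ((LipschitzWith.projIcc (zero_le_one' ℝ)).dist_le_mul _ _).trans_lt ?_
    rw [Real.dist_eq, ← sub_div, abs_div, abs_of_pos (by positivity : (0 : ℝ) < N + 1)]
    simp only [NNReal.coe_one, one_mul]
    exact (div_le_div_of_nonneg_right hij (by positivity)).trans_lt hN
  have h1 := steps u (Small B ε) z hz' (N + 1) (by
    intro i _ l hl m hm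
    have hl' := mem_Ch.1 hz l hl
    constructor
    · intro y hy
      obtain ⟨x, hx, rfl | rfl⟩ := hm y hy <;>
      · simp only [hu]
        rw [amb_mem _ (hl'.1 x hx)]
        exact (H _).2
    · intro y hy y' hy'
      obtain ⟨x, hx, h⟩ := hm y hy
      obtain ⟨x', hx', h'⟩ := hm y' hy'
      rcases h with rfl | rfl <;> rcases h' with rfl | rfl <;>
        exact hd _ _ (by simp) x x' (hl'.1 x hx) (hl'.1 x' hx') (hl'.2 x hx x' hx'))
  have e0 : u 0 = amb fun a => (f a : E') := by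
    simp only [hu]
    congr 1
    funext a
    simp
  have e1 : u (N + 1) = amb fun a => (g a : E') := by
    simp only [hu]
    congr 1
    funext a
    have : ((N + 1 : ℕ) : ℝ) / (N + 1) = 1 := by
      push_cast
      exact div_self (by positivity)
    rw [this]
    simp
  rwa [e0, e1] at h1

theorem noTwo_transfer {V' : Type} [Fintype V'] [Nonempty V] [Nonempty V'] (K : Set (Set V))
    (L : Set (Set V')) (hK : K.Nonempty) (hL : L.Nonempty) (f : C(Rea K, Rea L))
    (g : C(Rea L, Rea K)) (ρ : C(Rea K, Rea K)) (hh : (g.comp f).Homotopic ρ)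
    (hρ : ∀ a v, (ρ a).1 v ≠ 0 → a.1 v ≠ 0) (hT : NoTwo L) : NoTwo K := by
  intro z c hz hc hzc
  have hz' := bd_of_two hzc
  have hcV : (0 : ℝ) < 1 / Fintype.card V := by
    have : (0 : ℝ) < Fintype.card V := by exact_mod_cast Fintype.card_pos
    positivity
  have hcV' : (0 : ℝ) < 1 / Fintype.card V' := by
    have : (0 : ℝ) < Fintype.card V' := by exact_mod_cast Fintype.card_pos
    positivity
  obtain ⟨φ, hφ⟩ := exists_phi (V := V)
  obtain ⟨φ', hφ'⟩ := exists_phi (V := V')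
  obtain ⟨δ1, hδ1, H1⟩ := amb_homotopic (isCompact_Rea K) hh hcV
  obtain ⟨ε1, hε1, H2⟩ := amb_small (isCompact_Rea L) g hcV
  have hε : 0 < min ε1 (1 / Fintype.card V') := lt_min hε1 hcV'
  obtain ⟨δ2, hδ2, H3⟩ := amb_small (isCompact_Rea K) f hε
  obtain ⟨τ, t0, t1, t2⟩ := exists_tau (V := V) (lt_min hδ1 hδ2)
  obtain ⟨τ', t0', t1', t2'⟩ := exists_tau (V := V') hε
  have hτ : ∀ w ∈ Ch (InK K), τ w ∈ Ch (Small (Rea K) (min δ1 δ2)) := fun w hw =>
    map_mem _ _ (fun l ⟨U, hU, hl⟩ => Ch_mono (Small.mono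
      (fun a ha => by exact ⟨U, hU, Spx_mono hl ha⟩) le_rfl) (t1 l)) hw
  have hτ' : ∀ w ∈ Ch (InK L), τ' w ∈ Ch (Small (Rea L) (min ε1 (1 / Fintype.card V'))) :=
    fun w hw => map_mem _ _ (fun l ⟨U, hU, hl⟩ => Ch_mono (Small.mono
      (fun a ha => by exact ⟨U, hU, Spx_mono hl ha⟩) le_rfl) (t1' l)) hw
  set F : (V → ℝ) → (V' → ℝ) := amb fun a => (f a : V' → ℝ) with hF
  set G : (V' → ℝ) → (V → ℝ) := amb fun a => (g a : V → ℝ) with hG
  have hF1 : ∀ w ∈ Ch (InK K), push F (τ w) ∈ Ch (Small (Rea L) (min ε1 (1 / Fintype.card V'))) :=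
    fun w hw => push_mem F (fun l hl => H3 l (Small.mono le_rfl (min_le_right _ _) l hl)) (hτ w hw)
  have hF2 : ∀ w ∈ Ch (InK K), push φ' (push F (τ w)) ∈ Ch (InK L) := fun w hw =>
    push_mem φ' (fun l hl => phi_small hφ' hL l (Small.mono le_rfl (min_le_right _ _) l hl))
      (hF1 w hw)
  obtain ⟨b2, hb2, hb2'⟩ := hT _ _ (hF2 z hz) (hF2 c hc) (by
    rw [bd_push, bd_push, t2, hzc]; simp)
  have hz1 : bd (push F (τ z)) = 0 := by rw [bd_push, t2, hz']; simp
  have h4 : push F (τ z) ∈ Bd (Small (Rea L) (min ε1 (1 / Fintype.card V'))) := by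
    have h5 := back_small hφ' hε (min_le_right _ _) τ' t0' t1' t2' (hF1 z hz) hz1
    have h6 : τ' (push φ' (push F (τ z))) ∈
        Bd (Small (Rea L) (min ε1 (1 / Fintype.card V'))) :=
      ⟨τ' b2, hτ' b2 hb2, by rw [t2', hb2']⟩
    simpa using Submodule.sub_mem _ h6 h5
  have h7 : push G (push F (τ z)) ∈ Bd (Small (Rea K) (1 / Fintype.card V)) :=
    push_Bd G (fun l hl => H2 l (Small.mono le_rfl (min_le_left _ _) l hl)) h4
  have h8 := H1 (τ z) (Ch_mono (Small.mono le_rfl (min_le_left _ _)) (hτ z hz))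
    (by rw [t2, hz']; simp)
  have h9 : push (amb fun a => ((g.comp f) a : V → ℝ)) (τ z) = push G (push F (τ z)) := by
    rw [push_push]
    refine push_congr (fun l hl x hx => ?_) (hτ z hz)
    have hx' := hl.1 x hx
    simp only [Function.comp_apply, hF, hG]
    rw [amb_mem _ hx', amb_mem _ hx', amb_mem _ (f _).2]
    rfl
  rw [h9] at h8
  set R : (V → ℝ) → (V → ℝ) := amb fun a => (ρ a : V → ℝ) with hR
  have h10 : push R (τ z) ∈ Bd (Small (Rea K) (1 / Fintype.card V)) := by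
    simpa using Submodule.add_mem _ h7 h8
  have h11 : push φ (push R (τ z)) ∈ Bd (InK K) := push_Bd φ (phi_small hφ hK) h10
  have h12 := carried_id K (push φ ∘ₗ push R ∘ₗ τ) (by simp [t0]) (fun l ⟨U, hU, hl⟩ => by
    simp only [LinearMap.comp_apply]
    rw [push_push]
    refine push_mem _ (fun m hm v hv => ?_) (t1 l)
    obtain ⟨a, ha, rfl⟩ := List.mem_map.1 hv
    have ha1 := hm.1 a ha
    have ha2 : a ∈ Rea K := ⟨U, hU, Spx_mono hl ha1⟩
    apply ha1.2.2
    apply hρ ⟨a, ha2⟩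
    simp only [Function.comp_apply, hR]
    rw [amb_mem _ ha2]
    obtain ⟨U', -, h⟩ := (ρ ⟨a, ha2⟩).2
    exact hφ _ _ h.2.1 (by simpa using hcV))
    (fun c => by simp [bd_push, t2]) hz hz'
  simpa using Submodule.sub_mem _ h11 h12

end Pool.Agent.P.MP_22a609_co
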