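import Pool.Agent.P.MP_22a609_co.Geom

/-! Two-torsion certificates for order complexes: transport and suspension. -/

namespace Pool.Agent.P.MP_22a609_co

section basic
variable {W W' : Type} [Preorder W] [Preorder W']

/-- weakly increasing lists in `S` -/
def Inc (S : Set W) (l : List W) : Prop := l.Pairwise (· ≤ ·) ∧ ∀ x ∈ l, x ∈ S

/-- lists of pairwise comparable elements of `S` -/
def Chn (S : Set W) (l : List W) : Prop :=
  (∀ x ∈ l, x ∈ S) ∧ ∀ x ∈ l, ∀ y ∈ l, x ≤ y ∨ y ≤ x

theorem Inc.her (S : Set W) : Her (Inc S) := fun _ _ h hl =>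
  ⟨hl.1.sublist h, fun x hx => hl.2 x (h.subset hx)⟩

theorem Inc.chn {S : Set W} (l : List W) (h : Inc S l) : Chn S l := by
  refine ⟨h.2, fun x hx y hy => ?_⟩
  have h1 : l.Pairwise fun a b => a ≤ b ∨ b ≤ a := h.1.imp Or.inl
  by_cases hxy : x = y
  · exact Or.inl hxy.le
  · have : Std.Symm fun a b : W => a ≤ b ∨ b ≤ a := ⟨fun _ _ h => h.symm⟩
    exact h1.forall hx hy hxy

/-- a cycle `z` of order two together with a mod two cocycle detecting it -/
def Tor (S : Set W) (k : ℕ) : Prop :=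
  ∃ (z c : C W) (A : C W →ₗ[ℤ] ZMod 2), c ∈ Ch (Inc S) ∧ bd c = (2 : ℤ) • z ∧
    (∀ l : List W, l.length ≠ k → A (gen l) = 0) ∧ (∀ l, Chn S l → A (bd (gen l)) = 0) ∧ A z = 1

theorem cocycle_chn {S : Set W} {A : C W →ₗ[ℤ] ZMod 2} (h : ∀ l, Chn S l → A (bd (gen l)) = 0)
    {b : C W} (hb : b ∈ Ch (Chn S)) : A (bd b) = 0 := by
  have := map_congr (A ∘ₗ bd) 0 (fun l hl => by simpa using h l hl) hb
  simpa using this

theorem Inc.map {S : Set W} {S' : Set W'} {f : W → W'} (hf : Monotone f) (hm : Set.MapsTo f S S')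
    (l : List W) (h : Inc S l) : Inc S' (l.map f) :=
  ⟨List.pairwise_map.2 (h.1.imp fun h => hf h), fun y hy => by
    obtain ⟨x, hx, rfl⟩ := List.mem_map.1 hy
    exact hm (h.2 x hx)⟩

theorem prism_inc {S : Set W} {S' : Set W'} {u v : W → W'} (hu : Monotone u) (hv : Monotone v)
    (huv : ∀ x, u x ≤ v x) (mu : Set.MapsTo u S S') (mv : Set.MapsTo v S S') {c : C W}
    (hc : c ∈ Ch (Inc S)) : prism u v c ∈ Ch (Inc S') := by
  refine map_mem _ _ (fun l hl => ?_) hc
  induction l with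
  | nil => simp [prism, prismL]
  | cons x l ih =>
    have e : prism u v (gen (x :: l)) =
        gen (u x :: (x :: l).map v) - cone (u x) (prism u v (gen l)) := by simp [prism, prismL]
    have hp := List.pairwise_cons.1 hl.1
    have h1 := Inc.map hv mv _ hl
    rw [e]
    refine Submodule.sub_mem _ (gen_mem ⟨List.pairwise_cons.2 ⟨fun y hy => ?_, h1.1⟩,
      fun y hy => ?_⟩) ?_
    · obtain ⟨w, hw, rfl⟩ := List.mem_map.1 hy
      rcases List.mem_cons.1 hw with rfl | hw
      · exact huv _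
      · exact (huv _).trans (hv (hp.1 w hw))
    · rcases List.mem_cons.1 hy with rfl | hy
      · exact mu (hl.2 x (by simp))
      · exact h1.2 y hy
    · have h2 := ih (Inc.her S _ _ (List.sublist_cons_self x l) hl)
      have h3 := prism_gen_mem u v l
      refine cone_mem (P := fun m => Inc S' m ∧ ∀ y ∈ m, ∃ w ∈ l, y = u w ∨ y = v w) _
        (fun m hm => ⟨List.pairwise_cons.2 ⟨fun y hy => ?_, hm.1.1⟩, fun y hy => ?_⟩)
        (mem_Ch.2 fun m hm => ⟨mem_Ch.1 h2 m hm, mem_Ch.1 h3 m hm⟩)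
      · obtain ⟨w, hw, rfl | rfl⟩ := hm.2 y hy
        · exact hu (hp.1 w hw)
        · exact (huv _).trans (hv (hp.1 w hw))
      · rcases List.mem_cons.1 hy with rfl | hy
        · exact mu (hl.2 x (by simp))
        · exact hm.1.2 y hy

theorem push_id' {Y : Type} (c : C Y) : push id c = c := by
  have := lhom_ext (S := push (id : Y → Y)) (T := LinearMap.id) (fun l => by simp) c
  simpa using this

theorem Tor.map {S : Set W} {S' : Set W'} {k : ℕ} (h : Tor S k) (f : W → W') (g : W' → W)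
    (hf : Monotone f) (hg : Monotone g) (mf : Set.MapsTo f S S') (mg : Set.MapsTo g S' S)
    (hgf : ∀ x, g (f x) ≤ x) : Tor S' k := by
  obtain ⟨z, c, A, hc, hz, hk, hA, h1⟩ := h
  have hz' : z ∈ Ch (Inc S) := two_mem (hz ▸ bd_mem (Inc.her S) hc)
  refine ⟨push f z, push f c, A ∘ₗ push g, push_mem f (Inc.map hf mf) hc,
    by rw [bd_push, hz, map_smul], fun l hl => by simpa using hk (l.map g) (by simpa using hl),
    fun l hl => ?_, ?_⟩
  · rw [LinearMap.comp_apply, ← bd_push, push_gen]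
    refine hA _ ⟨fun y hy => ?_, fun y hy y' hy' => ?_⟩
    · obtain ⟨x, hx, rfl⟩ := List.mem_map.1 hy
      exact mg (hl.1 x hx)
    · obtain ⟨x, hx, rfl⟩ := List.mem_map.1 hy
      obtain ⟨x', hx', rfl⟩ := List.mem_map.1 hy'
      exact (hl.2 x hx x' hx').imp (fun h => hg h) (fun h => hg h)
  · have h2 := bd_prism (g ∘ f) id z
    have h3 := cocycle_chn hA (Ch_mono Inc.chn (prism_inc (hg.comp hf) monotone_id hgf
      (mg.comp mf) (Set.mapsTo_id S) hz'))
    rw [bd_of_two hz, map_zero, add_zero, push_id'] at h2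
    rw [h2, map_sub, sub_eq_zero] at h3
    rw [LinearMap.comp_apply, push_push, ← h3, h1]

end basic

section cones
variable {Y : Type}

/-- cone with the apex written last -/
noncomputable def pcL (y : Y) : List Y → C Y
  | [] => gen [y]
  | x :: l => - cone x (pcL y l)

noncomputable def pc (y : Y) : C Y →ₗ[ℤ] C Y := ext (pcL y)

theorem pc_nil (y : Y) : pc y (gen []) = gen [y] := by simp [pc, pcL]

theorem pc_cone (y x : Y) (c : C Y) : pc y (cone x c) = - cone x (pc y c) := by
  have := lhom_ext (S := pc y ∘ₗ cone x) (T := - cone x ∘ₗ pc y) (fun l => by simp [pc, pcL]) c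
  simpa using this

theorem bd_pc (y : Y) (c : C Y) : bd (pc y c) = c - pc y (bd c) := by
  have := lhom_ext (S := bd ∘ₗ pc y) (T := LinearMap.id - pc y ∘ₗ bd) (fun l => by
    induction l with
    | nil => simp [pc_nil, bd_cons]
    | cons x l ih =>
      simp only [LinearMap.comp_apply, LinearMap.sub_apply, LinearMap.id_apply] at ih ⊢
      rw [bd_cons, ← cone_gen, pc_cone, map_neg, bd_cone, ih, map_sub, map_sub, pc_cone]
      abel) c
  simpa using this

theorem pc_gen_mem (y : Y) (l : List Y) : pc y (gen l) ∈ Ch (fun m => m = l ++ [y]) := by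
  induction l with
  | nil => rw [pc_nil]; exact gen_mem rfl
  | cons x l ih =>
    rw [← cone_gen, pc_cone]
    exact Submodule.neg_mem _ (cone_mem x (fun m hm => by simp [hm]) ih)

open Classical in
/-- kills the lists through `y` -/
noncomputable def kil (y : Y) : C Y →ₗ[ℤ] C Y := ext fun l => if y ∈ l then 0 else gen l

open Classical in
noncomputable def ctrL (y : Y) : List Y → C Y
  | [] => 0
  | x :: l => if x = y then kil y (gen l) else - cone x (ctrL y l)

/-- contraction with the vertex `y` -/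
noncomputable def ctr (y : Y) : C Y →ₗ[ℤ] C Y := ext (ctrL y)

theorem kil_cone_self (y : Y) (c : C Y) : kil y (cone y c) = 0 := by
  have := lhom_ext (S := kil y ∘ₗ cone y) (T := 0) (fun l => by simp [kil]) c
  simpa using this

theorem kil_cone {x y : Y} (h : x ≠ y) (c : C Y) : kil y (cone x c) = cone x (kil y c) := by
  have := lhom_ext (S := kil y ∘ₗ cone x) (T := cone x ∘ₗ kil y) (fun l => by
    by_cases hl : y ∈ l <;> simp [kil, hl, h.symm]) c
  simpa using this

theorem ctr_cone_self (y : Y) (c : C Y) : ctr y (cone y c) = kil y c := by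
  have := lhom_ext (S := ctr y ∘ₗ cone y) (T := kil y) (fun l => by simp [ctr, ctrL]) c
  simpa using this

theorem ctr_cone {x y : Y} (h : x ≠ y) (c : C Y) : ctr y (cone x c) = - cone x (ctr y c) := by
  have := lhom_ext (S := ctr y ∘ₗ cone x) (T := - cone x ∘ₗ ctr y) (fun l => by
    simp [ctr, ctrL, h]) c
  simpa using this

theorem ctr_nil (y : Y) : ctr y (gen []) = 0 := by simp [ctr, ctrL]

theorem kil_bd (y : Y) (l : List Y) :
    kil y (bd (gen l)) = bd (kil y (gen l)) + ctr y (gen l) := by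
  induction l with
  | nil => simp [kil, ctr_nil]
  | cons x l ih =>
    rw [bd_cons, ← cone_gen, map_sub]
    by_cases h : x = y
    · subst h
      rw [kil_cone_self, kil_cone_self, ctr_cone_self]; simp
    · rw [kil_cone h, kil_cone h, ctr_cone h, ih, bd_cone, map_add]; abel

theorem ctr_bd (y : Y) (l : List Y) : ctr y (bd (gen l)) = - bd (ctr y (gen l)) := by
  induction l with
  | nil => simp [ctr_nil]
  | cons x l ih =>
    rw [bd_cons, ← cone_gen, map_sub]
    by_cases h : x = y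
    · subst h
      rw [ctr_cone_self, ctr_cone_self, kil_bd]; abel
    · rw [ctr_cone h, ctr_cone h, ih, map_neg, map_neg, bd_cone]; abel

theorem ctr_gen_mem (y : Y) (l : List Y) : ctr y (gen l) ∈
    Ch (fun m => (∀ x ∈ m, x ∈ l) ∧ y ∉ m ∧ y ∈ l ∧ m.length + 1 = l.length) := by
  induction l with
  | nil => simp [ctr_nil]
  | cons x l ih =>
    rw [← cone_gen]
    by_cases h : x = y
    · subst h
      rw [ctr_cone_self]
      by_cases hl : x ∈ l
      · simp [kil, hl]
      · simp only [kil, ext_gen, hl, if_false]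
        exact gen_mem ⟨fun w hw => by simp [hw], hl, by simp, rfl⟩
    · rw [ctr_cone h]
      refine Submodule.neg_mem _ (cone_mem x (fun m hm => ⟨fun w hw => ?_, ?_, by simp [hm.2.2.1],
        by simp [hm.2.2.2]⟩) ih)
      · rcases List.mem_cons.1 hw with rfl | hw
        · simp
        · simp [hm.1 w hw]
      · simp [hm.2.1, Ne.symm h]

theorem ctr_of_not {y : Y} {c : C Y} (hc : c ∈ Ch (fun l => y ∉ l)) : ctr y c = 0 := by
  have := map_congr (ctr y) 0 (fun l hl => by
    ext m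
    by_contra hm
    exact hl (mem_Ch.1 (ctr_gen_mem y l) m hm).2.2.1) hc
  simpa using this

theorem ctr_pc {y : Y} {c : C Y} (hc : c ∈ Ch (fun l => y ∉ l)) : ctr y (pc y c) = c := by
  have := map_congr (ctr y ∘ₗ pc y) LinearMap.id (fun l hl => by
    simp only [LinearMap.comp_apply, LinearMap.id_apply]
    induction l with
    | nil => rw [pc_nil, ← cone_gen, ctr_cone_self]; simp [kil]
    | cons x l ih =>
      have h : x ≠ y := fun h => hl (by simp [h])
      rw [← cone_gen, pc_cone, map_neg, ctr_cone h, ih fun h => hl (by simp [h]), neg_neg]) hc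
  simpa using this

end cones

section susp
variable {W W' : Type} [Preorder W] [Preorder W']

theorem pc_inc {S : Set W} {S' : Set W'} {f : W → W'} (hf : Monotone f) (mf : Set.MapsTo f S S')
    {y : W'} (hy : y ∈ S') (hfy : ∀ x, f x ≤ y) {c : C W} (hc : c ∈ Ch (Inc S)) :
    pc y (push f c) ∈ Ch (Inc S') := by
  refine map_mem (pc y ∘ₗ push f) _ (fun l hl => ?_) hc
  rw [LinearMap.comp_apply, push_gen]
  refine Ch_mono (fun m hm => ?_) (pc_gen_mem y _)
  subst hm
  have h1 := Inc.map hf mf l hl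
  refine ⟨List.pairwise_append.2 ⟨h1.1, by simp, fun a ha b hb => ?_⟩, fun a ha => ?_⟩
  · obtain ⟨x, -, rfl⟩ := List.mem_map.1 ha
    rw [List.mem_singleton.1 hb]
    exact hfy x
  · rcases List.mem_append.1 ha with ha | ha
    · exact h1.2 a ha
    · rw [List.mem_singleton.1 ha]; exact hy

theorem Tor.susp {S : Set W} {S' : Set W'} {k : ℕ} (h : Tor S k) (ι u σ : W → W') (ρ : W' → W)
    (y y' : W') (hι : Monotone ι) (hu : Monotone u) (hσ : Monotone σ) (hρ : Monotone ρ)
    (mι : Set.MapsTo ι S S') (mu : Set.MapsTo u S S') (mσ : Set.MapsTo σ S S')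
    (hιu : ∀ x, ι x ≤ u x) (hσu : ∀ x, σ x ≤ u x) (hy : y ∈ S') (hy' : y' ∈ S')
    (hιy : ∀ x, ι x ≤ y) (hσy : ∀ x, σ x ≤ y') (hρι : ∀ x, ρ (ι x) = x)
    (hne : ∀ x ∈ S, ι x ≠ y ∧ u x ≠ y ∧ σ x ≠ y) (hyy : y' ≠ y)
    (hlk : ∀ w ∈ S', w ≠ y → (w ≤ y ∨ y ≤ w) → ρ w ∈ S) : Tor S' (k + 1) := by
  obtain ⟨z, c, A, hc, hz, hk, hA, h1⟩ := h
  have hz' : z ∈ Ch (Inc S) := two_mem (hz ▸ bd_mem (Inc.her S) hc)
  obtain ⟨H, hH⟩ : ∃ H : C W →ₗ[ℤ] C W', H = prism σ u - prism ι u + pc y' ∘ₗ push σ := ⟨_, rfl⟩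
  have hH1 : ∀ w, bd (H w) = push ι w - H (bd w) := fun w => by
    have e1 := bd_prism ι u w
    have e2 := bd_prism σ u w
    simp only [hH, LinearMap.add_apply, LinearMap.sub_apply, LinearMap.comp_apply, map_add,
      map_sub, bd_pc, bd_push]
    linear_combination (norm := abel) e2 - e1
  have hH2 : ∀ T : Set W', Set.MapsTo ι S T → Set.MapsTo u S T → Set.MapsTo σ S T → y' ∈ T →
      ∀ w ∈ Ch (Inc S), H w ∈ Ch (Inc T) := fun T a1 a2 a3 a4 w hw => by
    rw [hH]
    exact Submodule.add_mem _ (Submodule.sub_mem _ (prism_inc hσ hu hσu a3 a2 hw)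
      (prism_inc hι hu hιu a1 a2 hw)) (pc_inc hσ a3 a4 hσy hw)
  refine ⟨pc y (push ι z) - H z, H c - pc y (push ι c), A ∘ₗ push ρ ∘ₗ ctr y,
    Submodule.sub_mem _ (hH2 S' mι mu mσ hy' c hc) (pc_inc hι mι hy hιy hc), ?_,
    fun l hl => ?_, fun l hl => ?_, ?_⟩
  · rw [map_sub, hH1, bd_pc, bd_push, hz]
    simp only [map_smul, smul_sub]
    abel
  · have := map_congr (A ∘ₗ push ρ) 0 (fun m hm => by
      simpa using hk (m.map ρ) (by simp only [List.length_map]; omega)) (ctr_gen_mem y l)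
    simpa using this
  · simp only [LinearMap.comp_apply]
    rw [ctr_bd, map_neg, map_neg, ← bd_push, neg_eq_zero]
    refine cocycle_chn hA (push_mem ρ (fun m hm => ⟨fun a ha => ?_, fun a ha b hb => ?_⟩)
      (ctr_gen_mem y l))
    · obtain ⟨x, hx, rfl⟩ := List.mem_map.1 ha
      exact hlk x (hl.1 x (hm.1 x hx)) (fun h => hm.2.1 (h ▸ hx)) (hl.2 x (hm.1 x hx) y hm.2.2.1)
    · obtain ⟨x, hx, rfl⟩ := List.mem_map.1 ha
      obtain ⟨x', hx', rfl⟩ := List.mem_map.1 hb
      exact (hl.2 x (hm.1 x hx) x' (hm.1 x' hx')).imp (fun h => hρ h) (fun h => hρ h)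
  · have e1 : ctr y (H z) = 0 := ctr_of_not (Ch_mono (fun l hl h => hl.2 y h rfl)
      (hH2 {w | w ≠ y} (fun x hx => (hne x hx).1) (fun x hx => (hne x hx).2.1)
        (fun x hx => (hne x hx).2.2) hyy z hz'))
    have e2 : ctr y (pc y (push ι z)) = push ι z := ctr_pc (push_mem ι (fun l hl h => by
      obtain ⟨x, hx, hxy⟩ := List.mem_map.1 h
      exact (hne x (hl.2 x hx)).1 hxy) hz')
    have e3 : ρ ∘ ι = id := funext hρι
    simp only [LinearMap.comp_apply]
    rw [map_sub, e1, e2, sub_zero, push_push, e3, push_id', h1]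

end susp

end Pool.Agent.P.MP_22a609_co
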