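import Pool.Agent.P.MP_22a609_co.Lat1
import Pool.Agent.Lib.Helper83.Bridge

/-! From a combinatorial two-torsion certificate to singular homology. -/

namespace Pool.Agent.P.MP_22a609_co

open Pool.Agent.Lib

section proj
variable {Y : Type}

/-- the part of a chain on lists of length `k` -/
noncomputable def proj (k : ℕ) : C Y →ₗ[ℤ] C Y := ext fun l => if l.length = k then gen l else 0

theorem proj_gen (k : ℕ) (l : List Y) : proj k (gen l) = if l.length = k then gen l else 0 := by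
  simp [proj]

theorem bd_proj (k : ℕ) (c : C Y) : bd (proj (k + 1) c) = proj k (bd c) := by
  have := lhom_ext (S := (bd : C Y →ₗ[ℤ] C Y) ∘ₗ proj (k + 1)) (T := proj k ∘ₗ bd) (fun l => by
    simp only [LinearMap.comp_apply, proj_gen]
    split_ifs with h
    · have := map_congr (proj k) LinearMap.id (fun m hm => by
        rw [proj_gen, if_pos (by omega)]; rfl) (bd_gen_mem l)
      simpa using this.symm
    · have := map_congr (proj k) 0 (fun m hm => by
        rw [proj_gen, if_neg (by omega)]; rfl) (bd_gen_mem l)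
      simpa using this.symm) c
  simpa using this

theorem proj_mem {P : List Y → Prop} (k : ℕ) {c : C Y} (hc : c ∈ Ch P) :
    proj k c ∈ Ch (fun l => P l ∧ l.length = k) :=
  map_mem _ _ (fun l hl => by
    rw [proj_gen]
    split_ifs with h
    · exact gen_mem ⟨hl, h⟩
    · exact Submodule.zero_mem _) hc

/-- lists as formal simplices -/
noncomputable def toA {E : Type} (e : Y → E) : C Y →ₗ[ℤ] Helper83.LC ℤ E :=
  ext fun l => Helper83.ax ℤ (fun i : Fin l.length => e (l.get i))

theorem toA_cone {E : Type} (e : Y → E) (x : Y) (c : C Y) :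
    toA e (cone x c) = Helper83.cone (e x) (toA e c) := by
  have := lhom_ext (S := toA e ∘ₗ cone x) (T := Helper83.cone (e x) ∘ₗ toA e) (fun l => by
    simp only [LinearMap.comp_apply, cone_gen, toA, ext_gen, Helper83.cone_ax]
    congr 1
    funext i
    refine Fin.cases rfl (fun j => rfl) i) c
  simpa using this

theorem abd_toA {E : Type} (e : Y → E) (c : C Y) : Helper83.abd (toA e c) = toA e (bd c) := by
  have := lhom_ext (S := Helper83.abd ∘ₗ toA e) (T := toA e ∘ₗ bd) (fun l => by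
    simp only [LinearMap.comp_apply]
    induction l with
    | nil =>
      simp only [toA, ext_gen, bd_nil, map_zero]
      exact Helper83.abd_zero _
    | cons x l ih => rw [bd_cons, ← cone_gen, toA_cone, Helper83.abd_cone, ih, map_sub, toA_cone]) c
  simpa using this

/-- formal simplices as lists -/
noncomputable def frA : Helper83.LC ℤ Y →ₗ[ℤ] C Y :=
  Finsupp.linearCombination ℤ fun a => gen (List.ofFn a.2)

theorem frA_ax {k : ℕ} (v : Fin k → Y) : frA (Helper83.ax ℤ v) = gen (List.ofFn v) := by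
  simp [frA, Helper83.ax]

theorem frA_cone (x : Y) (c : Helper83.LC ℤ Y) : frA (Helper83.cone x c) = cone x (frA c) := by
  refine Helper83.all_eq (frA ∘ₗ Helper83.cone x) (cone x ∘ₗ frA) ?_ c
  rintro ⟨k, v⟩
  change frA (Helper83.cone x (Helper83.ax ℤ v)) = cone x (frA (Helper83.ax ℤ v))
  rw [Helper83.cone_ax, frA_ax, frA_ax, cone_gen, List.ofFn_succ]
  rfl

theorem frA_abd {k : ℕ} (v : Fin k → Y) :
    frA (Helper83.abd (Helper83.ax ℤ v)) = bd (gen (List.ofFn v)) := by
  induction k with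
  | zero => simp
  | succ k ih =>
    rw [List.ofFn_succ, bd_cons, ← Fin.cons_self_tail v, ← Helper83.cone_ax, Helper83.abd_cone,
      map_sub, frA_cone, ih, frA_ax]
    rfl

/-- the labelled vertices of a singular simplex -/
noncomputable def vert {X : Type} [TopologicalSpace X] (φ : X → Y) :
    Helper83.Ch ℤ X →ₗ[ℤ] Helper83.LC ℤ Y :=
  Finsupp.linearCombination ℤ fun a => Helper83.ax ℤ fun i => φ (a.2 (stdSimplex.vertex i))

theorem vert_sx {X : Type} [TopologicalSpace X] (φ : X → Y) {k : ℕ} (s : C(Helper83.Dl k, X)) :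
    vert φ (Helper83.sx ℤ s) = Helper83.ax ℤ fun i => φ (s (stdSimplex.vertex i)) := by
  simp [vert, Helper83.sx]

theorem vert_bd {X : Type} [TopologicalSpace X] (φ : X → Y) {k : ℕ} (s : C(Helper83.Dl k, X)) :
    vert φ (Helper83.bd (Helper83.sx ℤ s)) =
      Helper83.abd (Helper83.ax ℤ fun i => φ (s (stdSimplex.vertex i))) := by
  cases k with
  | zero => simp
  | succ k =>
    rw [Helper83.bd_succ, Helper83.abd_succ, map_sum]
    refine Finset.sum_congr rfl fun i _ => ?_
    rw [map_smul, vert_sx]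
    congr 2
    funext j
    simp [Helper83.face, stdSimplex.map_vertex]

end proj

variable {W : Type} [Fintype W] [Preorder W]

/-- the chains of `S` -/
def chains (S : Set W) : Set (Set W) := {U | U ⊆ S ∧ ∀ x ∈ U, ∀ y ∈ U, x ≤ y ∨ y ≤ x}

theorem Tor.chain [Nonempty W] {S : Set W} {k : ℕ} (h : Tor S k) :
    ∃ c ∈ Helper83.sub ℤ (Rea (chains S)) k, Helper83.bd c = 0 ∧
      c ∉ Helper83.Bd ℤ (Rea (chains S)) k ∧ 2 • c ∈ Helper83.Bd ℤ (Rea (chains S)) k := by
  classical
  obtain ⟨z, c, A, hc, hz, hk, hA, h1⟩ := h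
  have hz' : z ∈ Ch (Inc S) := two_mem (hz ▸ bd_mem (Inc.her S) hc)
  obtain ⟨φ, hφ⟩ := exists_phi (V := W)
  have hcard : (0 : ℝ) < 1 / Fintype.card W := by
    have : (0 : ℝ) < Fintype.card W := by exact_mod_cast Fintype.card_pos
    positivity
  obtain ⟨L, hL⟩ : ∃ L : C W →ₗ[ℤ] Helper83.Ch ℤ (W → ℝ),
      L = Helper83.affL ∘ₗ toA (fun w => Pi.single w 1) := ⟨_, rfl⟩
  have hL0 : ∀ l : List W, L (gen l) = Helper83.sx ℤ
      (Helper83.aff fun i : Fin l.length => (Pi.single (l.get i) 1 : W → ℝ)) := fun l => by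
    simp [hL, toA]
  have hL1 : ∀ w, Helper83.bd (L w) = L (bd w) := fun w => by
    simp [hL, Helper83.bd_affL, abd_toA]
  have hL2 : ∀ l : List W, L (gen l) ∈ Helper83.sub ℤ (Spx {v | v ∈ l}) l.length := fun l => by
    rw [hL0]
    exact Helper83.sx_mem (Helper83.aff_mem (convex_Spx _) fun i =>
      single_mem_Spx (List.get_mem l i))
  have hL3 : ∀ l, Inc S l → Spx {v | v ∈ l} ⊆ Rea (chains S) := fun l hl a ha =>
    ⟨_, ⟨(Inc.chn l hl).1, (Inc.chn l hl).2⟩, ha⟩
  have hL4 : ∀ j, ∀ w ∈ Ch (Inc S), L (proj j w) ∈ Helper83.sub ℤ (Rea (chains S)) j :=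
    fun j w hw => map_mem _ _ (fun l hl => hl.2 ▸ Helper83.sub_mono (hL3 l hl.1) (hL2 l))
      (proj_mem j hw)
  obtain ⟨B, hB⟩ : ∃ B : Helper83.Ch ℤ (W → ℝ) →ₗ[ℤ] ZMod 2, B = A ∘ₗ frA ∘ₗ vert φ := ⟨_, rfl⟩
  have hB1 : ∀ (T : Set (W → ℝ)) (j : ℕ), (∀ a ∈ T, ∀ b ∈ T, ∃ U ∈ chains S, φ a ∈ U ∧ φ b ∈ U) →
      ∀ e ∈ Helper83.sub ℤ T j, (B ∘ₗ Helper83.bd) e ∈ (⊥ : Submodule ℤ (ZMod 2)) := by
    intro T j hT e he
    refine Helper83.sub_ind _ (fun s hs => ?_) he
    simp only [hB, LinearMap.comp_apply, vert_bd, frA_abd, Submodule.mem_bot]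
    refine hA _ ⟨fun x hx => ?_, fun x hx y hy => ?_⟩
    · obtain ⟨i, rfl⟩ := List.mem_ofFn.1 hx
      obtain ⟨U, hU, h, -⟩ := hT _ (hs (stdSimplex.vertex i)) _ (hs (stdSimplex.vertex i))
      exact hU.1 h
    · obtain ⟨i, rfl⟩ := List.mem_ofFn.1 hx
      obtain ⟨i', rfl⟩ := List.mem_ofFn.1 hy
      obtain ⟨U, hU, h, h'⟩ := hT _ (hs (stdSimplex.vertex i)) _ (hs (stdSimplex.vertex i'))
      exact hU.2 _ h _ h'
  have hB2 : B (L (proj k z)) = 1 := by
    rw [← h1]
    refine lhom_ext (S := B ∘ₗ L ∘ₗ proj k) (T := A) (fun l => ?_) z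
    simp only [LinearMap.comp_apply, proj_gen]
    split_ifs with h
    · simp only [hB, hL0, LinearMap.comp_apply, vert_sx, frA_ax]
      congr 2
      conv_rhs => rw [← List.ofFn_get l]
      congr 1
      funext i
      have e : Helper83.aff (fun i : Fin l.length => (Pi.single (l.get i) 1 : W → ℝ))
          (stdSimplex.vertex i) = Pi.single (l.get i) 1 := by
        simp [Helper83.aff, Helper83.lin]
      have := hφ (Pi.single (l.get i) 1) (Pi.single (l.get i) 1) (by simp) (by simpa using hcard)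
      rw [e]
      by_contra hn
      exact this (Pi.single_eq_of_ne hn 1)
    · simp [hk l h]
  have hcyc' : Helper83.bd (L (proj k z)) = 0 := by
    cases k with
    | zero =>
      have := Helper83.sub_eq Helper83.bd 0 (fun s _ => by simp) (hL4 0 z hz')
      simpa using this
    | succ j => rw [hL1, bd_proj, bd_of_two hz, map_zero, map_zero]
  refine ⟨L (proj k z), hL4 k z hz', hcyc', ?_, L (proj (k + 1) c), hL4 _ c hc, ?_⟩
  · rintro ⟨e, he, hez⟩
    obtain ⟨m, hm⟩ := (Helper83.eventually_small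
      (N := fun b : W → ℝ => Metric.ball b (1 / Fintype.card W / 2))
      (fun _ => Metric.isOpen_ball) (fun a _ => Set.mem_iUnion.2 ⟨a, by simpa using hcard⟩)
      he).exists
    have e1 := Helper83.small_ind (P := ⊥) (B ∘ₗ Helper83.bd) (fun b w hw => hB1 _ _ (by
      rintro a ⟨⟨U, hU, ha⟩, ha'⟩ a' ⟨⟨U', -, hb⟩, hb'⟩
      refine ⟨U, hU, ha.2.2 _ (hφ a a ha.2.1 (by simpa using hcard)),
        ha.2.2 _ (hφ a' a hb.2.1 ?_)⟩
      have := dist_triangle_right a' a b
      rw [Metric.mem_ball] at ha' hb'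
      linarith) w hw) hm
    obtain ⟨T, hT1, hT2⟩ := Helper83.exists_htpy (R := ℤ) (X := W → ℝ) m
    have e2 : ((B ∘ₗ Helper83.bd) ∘ₗ T ∘ₗ L) (proj k z) ∈ (⊥ : Submodule ℤ (ZMod 2)) :=
      map_mem _ _ (fun l hl => hB1 _ _ (fun a ha b hb =>
        ⟨{v | v ∈ l}, ⟨(Inc.chn l hl.1).1, (Inc.chn l hl.1).2⟩,
          ha.2.2 _ (hφ a a ha.2.1 (by simpa using hcard)),
          hb.2.2 _ (hφ b b hb.2.1 (by simpa using hcard))⟩) _ (hT2 _ _ _ (hL2 l)))
        (proj_mem k hz')
    simp only [LinearMap.comp_apply, Submodule.mem_bot] at e1 e2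
    rw [Helper83.bd_Sd_pow, hez] at e1
    rw [hT1 (L (proj k z)), hcyc', map_zero, add_zero, map_add, e1, e2] at hB2
    simp at hB2
  · rw [hL1, bd_proj, hz, map_smul, map_smul]
    exact (natCast_zsmul _ 2)

open CategoryTheory AlgebraicTopology in
theorem Tor.sing [Nonempty W] {S : Set W} {k : ℕ} (h : Tor S (k + 2)) (R : Set (W → ℝ))
    (hR : R = Rea (chains S)) :
    ∃ x : ((singularHomologyFunctor (ModuleCat.{0} ℤ) (k + 1)).obj (ModuleCat.of ℤ ℤ)).obj
      (TopCat.of R), addOrderOf x = 2 := by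
  obtain ⟨c, hc, h0, h1, h2⟩ := h.chain
  rw [← hR] at hc h1 h2
  rcases Set.eq_empty_or_nonempty R with hU | hU
  · rw [hU] at hc
    exact absurd (Helper83.sub_empty hc ▸ Submodule.zero_mem _) h1
  have := hU.to_subtype
  let r : (W → ℝ) → R := Function.extend Subtype.val id fun _ => Classical.arbitrary R
  have hr : ∀ x : R, r x = x := fun x => Subtype.val_injective.extend_apply _ _ x
  have cr : ContinuousOn r R := by
    rw [continuousOn_iff_continuous_domRestrict]
    exact continuous_id.congr fun t => (hr t).symm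
  refine Helper83.exists_order (c := Helper83.push r c)
    (Helper83.push_mem (Set.mapsTo_univ r R) hc) ?_ (fun h3 => h1 ?_) ?_
  · rw [Helper83.bd_push cr hc, h0, map_zero]
  · have h4 := Helper83.push_Bd (g := (Subtype.val : R → W → ℝ)) (S' := R)
      continuous_subtype_val.continuousOn (fun x _ => x.2) h3
    rwa [Helper83.push_push _ cr hc, Helper83.push_eq_self (g := Subtype.val ∘ r)
      (fun x hx => congrArg Subtype.val (hr ⟨x, hx⟩)) hc] at h4
  · rw [← map_nsmul]
    exact Helper83.push_Bd cr (Set.mapsTo_univ r R) h2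

end Pool.Agent.P.MP_22a609_co
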