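import Mathlib

namespace Pool.Agent.P.MP_22a609_co

theorem filter_eq_take {α : Type} (Q : α → Bool) (B : List α)
    (h : B.Pairwise fun a a' => Q a' = true → Q a = true) :
    B.filter Q = B.take (B.filter Q).length := by
  induction B with
  | nil => simp
  | cons a B ih =>
    have h' := List.pairwise_cons.1 h
    by_cases ha : Q a = true
    · rw [List.filter_cons_of_pos ha, List.length_cons, List.take_succ_cons, ← ih h'.2]
    · have : B.filter Q = [] := List.filter_eq_nil_iff.2 fun b hb hq => ha (h'.1 b hb hq)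
      rw [List.filter_cons_of_neg ha, this]
      simp

theorem exists_order {ι : Type} [Fintype ι] [DecidableEq ι] [Nonempty ι] (f : ι → ℕ) (x : ι → ℝ)
    (hx : ∀ i j, f i = f j → x i = x j) : ∃ p : List ℕ,
      (p : Multiset ℕ) = Multiset.map (fun a => (Finset.univ.filter (fun z => f z = a)).card)
        (Finset.univ.image f).val ∧
      ∀ S : Finset ι, (∀ i ∈ S, ∀ i', i' ∉ S → x i < x i') → ∃ i, (p.take i).sum = S.card := by
  obtain ⟨sz, hsz⟩ : ∃ sz : ℕ → ℕ, sz = fun a => (Finset.univ.filter (fun z => f z = a)).card :=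
    ⟨_, rfl⟩
  obtain ⟨val, hval'⟩ : ∃ val : ℕ → ℝ, ∀ t, val (f t) = x t :=
    ⟨fun a => x (Function.invFun f a), fun t => hx _ _ (Function.invFun_eq ⟨t, rfl⟩)⟩
  obtain ⟨B, hBp, hBs⟩ : ∃ B : List ℕ, B.Perm (Finset.univ.image f).toList ∧
      B.Pairwise fun a b => val a ≤ val b := by
    classical
    refine ⟨(Finset.univ.image f).toList.mergeSort (fun a b => decide (val a ≤ val b)),
      List.mergeSort_perm _ _, ?_⟩
    have := List.pairwise_mergeSort (le := fun a b => decide (val a ≤ val b)) (fun a b c h1 h2 => by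
      simp only [decide_eq_true_eq] at h1 h2 ⊢
      exact h1.trans h2) (fun a b => by simpa using le_total (val a) (val b))
      (Finset.univ.image f).toList
    simpa using this
  rw [← hsz]
  refine ⟨B.map sz, ?_, fun S hcut => ?_⟩
  · rw [← Multiset.map_coe, Multiset.coe_eq_coe.2 hBp, Finset.coe_toList]
  obtain ⟨Q, hQ⟩ : ∃ Q : ℕ → Bool, ∀ a, Q a = true ↔ ∃ t ∈ S, f t = a :=
    ⟨fun a => decide (∃ t ∈ S, f t = a), fun a => by simp⟩
  have hmemB : ∀ a, a ∈ B ↔ ∃ t, f t = a := fun a => by
    rw [hBp.mem_iff]; simp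
  have hQp : B.Pairwise fun a a' => Q a' = true → Q a = true := by
    refine hBs.imp_of_mem fun {a b} ha _ hab hq => ?_
    rw [hQ] at hq ⊢
    obtain ⟨t', ht', rfl⟩ := hq
    obtain ⟨t, rfl⟩ := (hmemB a).1 ha
    refine ⟨t, ?_, rfl⟩
    by_contra hn
    rw [hval', hval'] at hab
    exact absurd (hcut t' ht' t hn) hab.not_gt
  have h1 := filter_eq_take Q B hQp
  refine ⟨(B.filter Q).length, ?_⟩
  rw [← List.map_take, ← h1, ((hBp.filter Q).map sz).sum_eq,
    Finset.card_eq_sum_card_fiberwise (f := f) (s := S)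
      (t := (Finset.univ.image f).filter fun a => Q a = true)]
  · have : ((Finset.univ.image f).toList.filter Q).Perm
        ((Finset.univ.image f).filter fun a => Q a = true).toList := by
      refine (List.perm_ext_iff_of_nodup ((Finset.nodup_toList _).filter _)
        (Finset.nodup_toList _)).2 fun a => ?_
      simp
    rw [(this.map sz).sum_eq, Finset.sum_map_toList]
    refine Finset.sum_congr rfl fun a ha => ?_
    rw [hsz]
    refine congrArg Finset.card ?_
    ext t
    simp only [Finset.mem_filter, Finset.mem_univ, true_and, hQ] at ha ⊢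
    refine ⟨fun h => ⟨?_, h⟩, fun h => h.2⟩
    obtain ⟨t', ht', h'⟩ := ha.2
    by_contra hn
    have := hcut t' ht' t hn
    rw [← hval' t, ← hval' t', h, h'] at this
    exact lt_irrefl _ this
  · intro t ht
    simp only [Finset.coe_filter, Finset.mem_image, Finset.mem_univ, true_and, hQ,
      Set.mem_ofPred_eq]
    exact ⟨⟨t, rfl⟩, t, ht, rfl⟩

end Pool.Agent.P.MP_22a609_co
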