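import Pool.Agent.P.MP_22a609_co.Lat2
import Pool.Agent.P.MP_22a609_co.Cert2
import Pool.Agent.P.MP_22a609_co.Order

/-! Two-torsion in the lattices generated by set partitions of shape `(4,3,2,2,1,...,1)`. -/

namespace Pool.Agent.P.MP_22a609_co

section shape
variable {α β : Type} [Fintype α] [Fintype β]

/-- the multiset of fibre sizes -/
def shp (f : α → ℕ) : Multiset ℕ :=
  Multiset.map (fun a => (Finset.univ.filter (fun z => f z = a)).card) (Finset.univ.image f).val

/-- set partitions of shape `μ` -/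
def Atm (μ : Multiset ℕ) (s : Setoid α) : Prop := ∃ f : α → ℕ, s = Setoid.ker f ∧ shp f = μ

/-- proper partitions above a partition of shape `μ` -/
def QQ (α : Type) [Fintype α] (μ : Multiset ℕ) : Set (Setoid α) :=
  {x | x ≠ ⊤ ∧ ∃ a, Atm μ a ∧ a ≤ x}

theorem shp_split (e : α → β) (o : β) (he : Function.Injective e) (ho : ∀ b, b = o ∨ ∃ a, b = e a)
    (f : β → ℕ) (hf : ∀ a, f (e a) ≠ f o) : shp f = 1 ::ₘ shp (f ∘ e) := by
  have h1 : Finset.univ.image f = insert (f o) (Finset.univ.image (f ∘ e)) := by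
    ext v
    simp only [Finset.mem_image, Finset.mem_univ, true_and, Finset.mem_insert, Function.comp_apply]
    constructor
    · rintro ⟨b, rfl⟩
      rcases ho b with rfl | ⟨a, rfl⟩
      · exact Or.inl rfl
      · exact Or.inr ⟨a, rfl⟩
    · rintro (rfl | ⟨a, rfl⟩)
      · exact ⟨o, rfl⟩
      · exact ⟨e a, rfl⟩
  have h2 : f o ∉ Finset.univ.image (f ∘ e) := by simpa using hf
  unfold shp
  rw [h1, Finset.insert_val_of_notMem h2, Multiset.map_cons]
  congr 1
  · rw [Finset.card_eq_one]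
    refine ⟨o, ?_⟩
    ext b
    rcases ho b with rfl | ⟨a, rfl⟩
    · simp
    · have : e a ≠ o := fun h => hf a (by rw [h])
      simp [hf a, this]
  · refine Multiset.map_congr rfl fun v hv => ?_
    obtain ⟨a, -, rfl⟩ := Finset.mem_image.1 hv
    rw [← Finset.card_map ⟨e, he⟩]
    congr 1
    ext b
    rcases ho b with rfl | ⟨a', rfl⟩
    · have : ∀ a', e a' ≠ b := fun a' h => hf a' (by rw [h])
      simp [this, (hf a).symm]
    · simp

/-- the partition into `{o}` and its complement -/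
def coat (o : β) : Setoid β := Setoid.ker fun b => b = o

theorem atm_up {π : β → α} {e : α → β} {o : β} (hπ : ∀ a, π (e a) = a)
    (ho : ∀ b, b = o ∨ ∃ a, b = e a) (hoe : ∀ a, e a ≠ o) {μ : Multiset ℕ} {a : Setoid α}
    (ha : Atm μ a) : Atm (1 ::ₘ μ) (Setoid.comap π a ⊓ coat o) := by
  classical
  obtain ⟨f, rfl, rfl⟩ := ha
  have hN : ∀ a, f a ≠ Finset.univ.sup f + 1 := fun a h => by
    have := Finset.le_sup (f := f) (Finset.mem_univ a)
    omega
  refine ⟨fun b => if b = o then Finset.univ.sup f + 1 else f (π b), ?_, ?_⟩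
  · ext b b'
    change (f (π b) = f (π b') ∧ (b = o) = (b' = o)) ↔
      (if b = o then _ else f (π b)) = (if b' = o then _ else f (π b'))
    by_cases h : b = o <;> by_cases h' : b' = o <;> simp [h, h', hN, (hN _).symm]
  · rw [shp_split e o (Function.LeftInverse.injective hπ) ho _ (by simp [hoe, hN])]
    congr 2
    funext a
    simp [hoe, hπ]

theorem atm_down {e : α → β} {o : β} (he : Function.Injective e)
    (ho : ∀ b, b = o ∨ ∃ a, b = e a) (hoe : ∀ a, e a ≠ o) {μ : Multiset ℕ} {a : Setoid β}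
    (ha : Atm (1 ::ₘ μ) a) (hle : a ≤ coat o) : Atm μ (Setoid.comap e a) := by
  obtain ⟨f, rfl, hf⟩ := ha
  refine ⟨f ∘ e, rfl, ?_⟩
  rw [shp_split e o he ho f fun a h => hoe a (by
    have : (e a = o) = (o = o) := hle h
    simpa using this)] at hf
  exact (Multiset.cons_inj_right 1).1 hf

end shape

theorem tor_step {n k : ℕ} {μ : Multiset ℕ} (hne : ∃ a : Setoid (Fin (n + 2)), Atm μ a)
    (h : Tor (QQ (Fin (n + 2)) μ) k) : Tor (QQ (Fin (n + 3)) (1 ::ₘ μ)) (k + 1) := by
  obtain ⟨π, hπ⟩ : ∃ π : Fin (n + 3) → Fin (n + 2), π = Fin.cons 0 id := ⟨_, rfl⟩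
  obtain ⟨e, he⟩ : ∃ e : Fin (n + 2) → Fin (n + 3), e = Function.update Fin.succ 0 0 := ⟨_, rfl⟩
  have p0 : π 0 = 0 := by simp [hπ]
  have p1 : ∀ a, π (Fin.succ a) = a := fun a => by simp [hπ]
  have p2 : ∀ b : Fin (n + 3), b = 0 ∨ ∃ a, b = Fin.succ a := fun b =>
    Fin.cases (Or.inl rfl) (fun a => Or.inr ⟨a, rfl⟩) b
  have q1 : ∀ a, π (e a) = a := fun a => by
    by_cases h : a = 0
    · simp [he, h, p0]
    · simp [he, h, p1]
  have q2 : ∀ b : Fin (n + 3), b = Fin.succ 0 ∨ ∃ a, b = e a := fun b => by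
    rcases p2 b with rfl | ⟨a, rfl⟩
    · exact Or.inr ⟨0, by simp [he]⟩
    · by_cases h : a = 0
      · exact Or.inl (by rw [h])
      · exact Or.inr ⟨a, by simp [he, h]⟩
  have q3 : ∀ a, e a ≠ Fin.succ 0 := fun a => by
    by_cases h : a = 0
    · rw [h, he, Function.update_self]; exact (Fin.succ_ne_zero 0).symm
    · rw [he, Function.update_of_ne h]; exact fun h' => h (Fin.succ_injective _ h')
  have mono : ∀ {γ δ : Type} (g : γ → δ), Monotone (Setoid.comap g) := fun g a b hab x y h => hab h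
  have top : ∀ x : Setoid (Fin (n + 2)), x ≠ ⊤ → Setoid.comap π x ≠ ⊤ := fun x hx h => hx (by
    rw [eq_top_iff]
    intro a b _
    have : (Setoid.comap π x) (Fin.succ a) (Fin.succ b) := by rw [h]; trivial
    simpa [Setoid.comap_rel, p1] using this)
  have mu : Set.MapsTo (Setoid.comap π) (QQ (Fin (n + 2)) μ) (QQ (Fin (n + 3)) (1 ::ₘ μ)) :=
    fun x ⟨hx, a, ha, hax⟩ => ⟨top x hx, _, atm_up p1 p2 Fin.succ_ne_zero ha,
      inf_le_left.trans (mono π hax)⟩
  have c0 : ¬ (coat (0 : Fin (n + 3))) 0 (Fin.succ 0) := fun h => by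
    have : ((0 : Fin (n + 3)) = 0) = (Fin.succ 0 = 0) := h
    simp at this
  have c1 : ¬ (coat (Fin.succ 0 : Fin (n + 3))) (Fin.succ 0) (Fin.succ 1) := fun h => by
    have : ((Fin.succ 0 : Fin (n + 3)) = Fin.succ 0) = (Fin.succ 1 = Fin.succ 0) := h
    exact Fin.zero_ne_one (Fin.succ_injective _ (this ▸ rfl)).symm
  have c2 : ∀ a b, (coat (0 : Fin (n + 3))) (Fin.succ a) (Fin.succ b) := fun a b => by
    change (Fin.succ a = 0) = (Fin.succ b = 0)
    simp
  obtain ⟨a0, ha0⟩ := hne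
  refine h.susp (fun x => Setoid.comap π x ⊓ coat 0) (Setoid.comap π)
    (fun x => Setoid.comap π x ⊓ coat (Fin.succ 0)) (Setoid.comap Fin.succ) (coat 0)
    (coat (Fin.succ 0)) (fun a b h => inf_le_inf_right _ (mono π h)) (mono π)
    (fun a b h => inf_le_inf_right _ (mono π h)) (mono _) ?_ mu ?_ (fun _ => inf_le_left)
    (fun _ => inf_le_left) ⟨fun h => c0 (by rw [h]; trivial), _,
      atm_up p1 p2 Fin.succ_ne_zero ha0, inf_le_right⟩ ⟨fun h => c1 (by rw [h]; trivial), _,
      atm_up q1 q2 q3 ha0, inf_le_right⟩ (fun _ => inf_le_right) (fun _ => inf_le_right)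
    (fun x => ?_) (fun x hx => ⟨fun h => hx.1 ?_, fun h => c0 ?_, fun h => c1 ?_⟩)
    (fun h => c1 (by rw [h]; exact c2 _ _)) ?_
  · rintro x ⟨hx, a, ha, hax⟩
    exact ⟨ne_top_of_le_ne_top (top x hx) inf_le_left, _, atm_up p1 p2 Fin.succ_ne_zero ha,
      inf_le_inf_right _ (mono π hax)⟩
  · rintro x ⟨hx, a, ha, hax⟩
    exact ⟨ne_top_of_le_ne_top (top x hx) inf_le_left, _, atm_up q1 q2 q3 ha,
      inf_le_inf_right _ (mono π hax)⟩
  · ext a b
    change (x (π a.succ) (π b.succ) ∧ coat 0 a.succ b.succ) ↔ x a b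
    simp [p1, c2]
  · rw [eq_top_iff]
    intro a b _
    have := c2 a b
    rw [← h] at this
    simpa [Setoid.comap_rel, p1] using this.1
  · rw [← h, Setoid.comap_rel, p0, p1]
  · have := c2 0 1
    rw [← h] at this
    exact this.2
  · rintro w ⟨hw, a, ha, haw⟩ hwy hcmp
    have hle : w ≤ coat 0 := by
      refine hcmp.elim id fun hge => ?_
      have key : ∀ a, ¬ w 0 (Fin.succ a) := fun a ha => hw (by
        have h0 : ∀ b, w 0 b := fun b => by
          rcases p2 b with rfl | ⟨b, rfl⟩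
          · exact w.refl _
          · exact w.trans ha (hge (c2 a b))
        rw [eq_top_iff]
        exact fun b b' _ => w.trans (w.symm (h0 b)) (h0 b'))
      intro b b' hb
      rcases p2 b with rfl | ⟨b, rfl⟩ <;> rcases p2 b' with rfl | ⟨b', rfl⟩
      · exact (coat 0).refl _
      · exact absurd hb (key _)
      · exact absurd (w.symm hb) (key _)
      · exact c2 _ _
    refine ⟨fun h => hwy (le_antisymm hle fun b b' hb => ?_), _,
      atm_down (Fin.succ_injective _) p2 Fin.succ_ne_zero ha (haw.trans hle), mono _ haw⟩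
    have hb' : (b = 0) = (b' = 0) := hb
    rcases p2 b with rfl | ⟨b, rfl⟩ <;> rcases p2 b' with rfl | ⟨b', rfl⟩
    · exact w.refl _
    · simp [Fin.succ_ne_zero] at hb'
    · simp [Fin.succ_ne_zero] at hb'
    · have : (Setoid.comap Fin.succ w) b b' := by rw [h]; trivial
      exact this

section base

theorem ins_len {W : Type} [LinearOrder W] (x : W) (l : List W) :
    ins x (gen l) ∈ Ch (fun m => m.length = l.length + 1) := by
  induction l with
  | nil => rw [ins_gen_of_lt (by simp)]; exact gen_mem rfl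
  | cons y l ih =>
    rcases lt_trichotomy x y with h | h | h
    · have : ins x (gen (y :: l)) = gen (x :: y :: l) := by simp [ins, insL, h]
      rw [this]; exact gen_mem rfl
    · subst h
      rw [← cone_gen, ins_cone_self]
      exact Submodule.zero_mem _
    · rw [← cone_gen, ins_cone_gt h]
      exact Submodule.neg_mem _ (cone_mem y (fun m hm => by simp [hm]) ih)

theorem srt_len {W : Type} [LinearOrder W] (l : List W) :
    srt (gen l) ∈ Ch (fun m => m.length = l.length) := by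
  induction l with
  | nil => rw [srt_nil]; exact gen_mem rfl
  | cons x l ih =>
    rw [← cone_gen, srt_cone]
    exact map_mem _ _ (fun m hm => Ch_mono (fun k hk => by simp [hk, hm]) (ins_len x m)) ih

/-- the complex of proper initial sums of rearrangements of `lam` -/
def KF : Set (Set (Fin 15)) := {U | ∃ p : List ℕ, p.Perm lam ∧ U = {v | v ∈ ps p}}

def alq (l : List (Fin 15)) : ℤ := alp (0 :: l)

def cK : List (ℤ × List (Fin 15)) := cps.map fun p => (1, ps p)

def leaf3 (p : List ℕ) : Bool := decide (Srt (ps p)) && decide (evM alq (bdT (ps p)) % 2 = 0)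

theorem dfs3_ok : dfs leaf3 7 lam [] = true := by decide +kernel

theorem srt3_ok : (bdM cK).all (fun p => decide (Srt p.2)) = true := by decide +kernel

theorem xor3_ok : xorM key (bdM cK) = 0 := by decide +kernel

theorem ev3_ok : evM alq (bdM cK) % 4 = 2 := by decide +kernel

theorem leaf3_of_perm {p : List ℕ} (hp : p.Perm lam) :
    Srt (ps p) ∧ evM alq (bdT (ps p)) % 2 = 0 := by
  have := dfs_spec leaf3 7 lam [] dfs3_ok p (by simpa [lam] using hp.length_eq) hp
  simpa only [leaf3, List.nil_append, Bool.and_eq_true, decide_eq_true_eq] using this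

theorem torK : ∃ (z c : C (Fin 15)) (B : C (Fin 15) →ₗ[ℤ] ZMod 2), c ∈ Ch (InK KF) ∧
    bd c = (2 : ℤ) • z ∧ (∀ l : List (Fin 15), l.length ≠ 5 → B (gen l) = 0) ∧
    (∀ b ∈ Ch (InK KF), B (bd b) = 0) ∧ B z = 1 := by
  have hc : toC cK ∈ Ch (fun l => Srt l ∧ InK KF l) := toC_mem fun q hq => by
    have h1 := cps_ok
    simp only [List.all_eq_true, decide_eq_true_eq] at h1
    obtain ⟨p, hp, rfl⟩ := List.mem_map.1 hq
    exact ⟨(leaf3_of_perm (h1 p hp)).1, _, ⟨p, h1 p hp, rfl⟩, fun v hv => hv⟩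
  have heven : ∀ l, (2 : ℤ) ∣ bd (toC cK) l := fun l => by
    rw [bd_toC]
    refine toC_even key Srt key_inj _ ?_ xor3_ok l
    have h1 := srt3_ok
    simpa only [List.all_eq_true, decide_eq_true_eq] using h1
  obtain ⟨z, hzc⟩ : ∃ z : C (Fin 15), bd (toC cK) = (2 : ℤ) • z := by
    refine ⟨Finsupp.mapRange (fun n : ℤ => n / 2) (by simp) (bd (toC cK)), ?_⟩
    ext l
    simp only [Finsupp.smul_apply, Finsupp.mapRange_apply, smul_eq_mul]
    exact (Int.mul_ediv_cancel' (heven l)).symm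
  have hz1 : z ∈ Ch (fun l => Srt l ∧ InK KF l) := two_mem (hzc ▸ bd_mem (her_srt KF) hc)
  have hal : ∀ (j : ℕ) (w : C (Fin 15)), j ≠ 5 → w ∈ Ch (fun m => m.length = j) →
      ext alq w = 0 := fun j w hj hw => by
    have := map_congr (ext alq) 0 (fun m hm => by simp [alq, alp, hm, hj]) hw
    simpa using this
  refine ⟨z, toC cK, (Int.castAddHom (ZMod 2)).toIntLinearMap ∘ₗ ext alq ∘ₗ srt,
    Ch_mono (fun _ h => h.2) hc, hzc, fun l hl => by simp [hal _ _ hl (srt_len l)],
    fun b hb => ?_, ?_⟩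
  · have := map_congr ((Int.castAddHom (ZMod 2)).toIntLinearMap ∘ₗ ext alq ∘ₗ bd) 0 (fun l hl => by
      obtain ⟨hl, U, ⟨p, hp, rfl⟩, hU⟩ := hl
      simp only [LinearMap.comp_apply, AddMonoidHom.coe_toIntLinearMap, Int.coe_castAddHom,
        LinearMap.zero_apply]
      by_cases h6 : l.length = 6
      · have hnd : l.Nodup := hl.imp ne_of_lt
        have hperm : l.Perm (ps p) :=
          (List.subperm_of_subset hnd hU).perm_of_length_le (by simp [ps, h6])
        have : l = ps p := hperm.eq_of_pairwise (fun a b _ _ h1 h2 => absurd h1 h2.not_gt) hl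
          (leaf3_of_perm hp).1
        rw [this, bd_gen_toC, ext_toC, ZMod.intCast_zmod_eq_zero_iff_dvd]
        exact Int.dvd_of_emod_eq_zero (leaf3_of_perm hp).2
      · cases l with
        | nil => simp
        | cons x l =>
          rw [hal l.length _ (by simpa using h6)
            (Ch_mono (fun m hm => by simpa using hm.2) (bd_gen_mem _))]
          simp) (srt_mem KF hb)
    simpa [bd_srt] using this
  · have h1 : srt z = z := by
      have := map_congr srt LinearMap.id (fun l hl => by simpa using srt_gen_of_srt hl.1) hz1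
      simpa using this
    have h4 := ev3_ok
    rw [← ext_toC, ← bd_toC, hzc, map_smul, smul_eq_mul] at h4
    simp only [LinearMap.comp_apply, AddMonoidHom.coe_toIntLinearMap, Int.coe_castAddHom, h1]
    exact (ZMod.intCast_eq_intCast_iff' _ 1 2).2 (by omega)

/-- the interval partition with cuts in `S` -/
def cutP (S : Set (Fin 15)) : Setoid (Fin 14) :=
  Setoid.ker fun t => {j ∈ S | j.val ≤ t.val}

theorem cutP_rel {S : Set (Fin 15)} {t t' : Fin 14} :
    cutP S t t' ↔ ∀ j ∈ S, (j.val ≤ t.val ↔ j.val ≤ t'.val) := by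
  change {j ∈ S | j.val ≤ t.val} = {j ∈ S | j.val ≤ t'.val} ↔ _
  simp [Set.ext_iff]

theorem cutP_anti {S S' : Set (Fin 15)} (h : S ⊆ S') : cutP S' ≤ cutP S := fun _ _ hr =>
  cutP_rel.2 fun j hj => cutP_rel.1 hr j (h hj)

/-- partitions with a nonempty set of cuts taken from `l` -/
def cutF (l : List (Fin 15)) : Set (Setoid (Fin 14)) :=
  {x | ∃ S : Set (Fin 15), S.Nonempty ∧ (∀ j ∈ S, j ∈ l) ∧ x = cutP S}

theorem exists_sub : ∃ T : C (Fin 15) →ₗ[ℤ] C (Setoid (Fin 14)), T (gen []) = gen [] ∧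
    (∀ l, T (gen l) ∈ Ch (Inc (cutF l))) ∧ ∀ c, bd (T c) = T (bd c) := by
  obtain ⟨h, h0, hh⟩ := carrier (fun _ : List (Fin 15) => True) (fun _ _ _ _ => trivial)
    (fun l => Ch (Inc (cutF l)))
    (fun l m _ hm => Ch_mono fun k hk => ⟨hk.1, fun x hx => by
      obtain ⟨S, h1, h2, h3⟩ := hk.2 x hx
      exact ⟨S, h1, fun j hj => hm.subset (h2 j hj), h3⟩⟩)
    (fun l _ hl c hc hc' => by
      refine ⟨cone (cutP {j | j ∈ l}) c, cone_mem _ (fun m hm => ⟨List.pairwise_cons.2
        ⟨fun x hx => ?_, hm.1⟩, fun x hx => ?_⟩) hc, by rw [bd_cone, hc']; simp⟩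
      · obtain ⟨S, -, h2, rfl⟩ := hm.2 x hx
        exact cutP_anti h2
      · rcases List.mem_cons.1 hx with rfl | hx
        · exact ⟨_, List.exists_mem_of_ne_nil l hl, fun _ h => h, rfl⟩
        · exact hm.2 x hx)
    0 1 (fun l _ => Submodule.zero_mem _) (fun l _ => by simp) (gen [])
    (gen_mem ⟨by simp, by simp⟩) (by simp)
  refine ⟨h, h0, fun l => (hh l trivial).1, fun c => ?_⟩
  have := lhom_ext (S := bd ∘ₗ h) (T := h ∘ₗ bd) (fun l => by simpa using (hh l trivial).2) c
  simpa using this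

open Classical in
/-- the block of `0` -/
noncomputable def bz (x : Setoid (Fin 14)) : Finset (Fin 14) := Finset.univ.filter fun t => x 0 t

noncomputable def gz (x : Setoid (Fin 14)) : Fin 15 := Fin.ofNat 15 (bz x).card

theorem mem_bz {x : Setoid (Fin 14)} {t : Fin 14} : t ∈ bz x ↔ x 0 t := by simp [bz]

theorem gz_cutP {S : Set (Fin 15)} (hS : S.Nonempty) (h0 : (0 : Fin 15) ∉ S) : gz (cutP S) ∈ S := by
  obtain ⟨j, hj, hmin⟩ := Set.exists_min_image S Fin.val (Set.toFinite S) hS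
  have hpos : ∀ i ∈ S, ¬ i.val ≤ (0 : Fin 14).val := fun i hi h =>
    h0 ((Fin.ext (Nat.le_zero.1 h) : i = 0) ▸ hi)
  have e : bz (cutP S) = Finset.univ.filter fun t : Fin 14 => t.val < j.val := by
    ext t
    rw [mem_bz, cutP_rel, Finset.mem_filter]
    refine ⟨fun h => ⟨Finset.mem_univ _, ?_⟩, fun h i hi => ?_⟩
    · exact not_le.1 fun h' => hpos j hj ((h j hj).2 h')
    · have := hmin i hi
      exact ⟨fun h' => absurd h' (hpos i hi), fun h' => by omega⟩
  have e2 : ∀ j : Fin 15, Fin.ofNat 15 (Finset.univ.filter fun t : Fin 14 => t.val < j.val).card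
      = j := by decide
  rw [gz, e, e2]
  exact hj

theorem cutF_sub {l : List (Fin 15)} (hl : InK KF l) : cutF l ⊆ QQ (Fin 14) lam := by
  obtain ⟨U, ⟨p, hp, rfl⟩, hU⟩ := hl
  have h := leaf2_of_perm hp
  rintro x ⟨S, ⟨j, hj⟩, hS, rfl⟩
  refine ⟨fun ht => ?_, Setoid.ker (blk p), ⟨blk p, rfl, h.2.2⟩, fun t t' htt => ?_⟩
  · have h1 : cutP S 0 13 := by rw [ht]; trivial
    have h2 := cutP_rel.1 h1 j hj
    have h3 : j ≠ 0 := fun e => h.1 (e ▸ hU j (hS j hj))
    have h4 : j ≠ 14 := fun e => h.2.1 (e ▸ hU j (hS j hj))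
    revert h2 h3 h4
    generalize j = i
    revert i
    decide
  · have key : ∀ t t' : Fin 14, blk p t = blk p t' → t.val ≤ t'.val → ∀ i ∈ ps p,
        i.val ≤ t'.val → i.val ≤ t.val := fun t t' e ht i hi hi' => by
      have hsub : ((ps p).filter fun j => decide (j.val ≤ t.val)).Sublist
          ((ps p).filter fun j => decide (j.val ≤ t'.val)) :=
        List.monotone_filter_right _ (fun j hj => by simp at hj ⊢; omega)
      have : i ∈ (ps p).filter fun j => decide (j.val ≤ t.val) := by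
        rw [hsub.eq_of_length e]; simp [hi, hi']
      simpa using (List.mem_filter.1 this).2
    refine cutP_rel.2 fun i hi => ?_
    have hi' := hU i (hS i hi)
    rcases le_total t.val t'.val with ht | ht
    · exact ⟨fun h => h.trans ht, key t t' htt ht i hi'⟩
    · exact ⟨key t' t htt.symm ht i hi', fun h => h.trans ht⟩

theorem chn_gz {l : List (Setoid (Fin 14))} (hl : Chn (QQ (Fin 14) lam) l) :
    InK KF (l.map gz) := by
  classical
  by_cases hne : l = []
  · exact ⟨_, ⟨lam, List.Perm.refl _, rfl⟩, by simp [hne]⟩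
  obtain ⟨m, hm⟩ := (List.finite_toSet l).exists_minimal (List.exists_mem_of_ne_nil l hne)
  obtain ⟨-, a, ⟨f, rfl, hf⟩, ham⟩ := hl.1 m hm.1
  have hle : ∀ w ∈ l, Setoid.ker f ≤ w := fun w hw =>
    ham.trans ((hl.2 m hm.1 w hw).elim id fun h => hm.2 hw h)
  obtain ⟨p, hp, hp'⟩ := exists_order f
    (fun i => - ((l.toFinset.filter fun v => v 0 i).card : ℝ)) (fun i j hij => by
      congr 3
      refine Finset.filter_congr fun v hv => ?_
      have : v i j := hle v (List.mem_toFinset.1 hv) hij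
      exact ⟨fun h => v.trans h this, fun h => v.trans h (v.symm this)⟩)
  have hperm : p.Perm lam := Multiset.coe_eq_coe.1 (hp.trans hf)
  refine ⟨_, ⟨p, hperm, rfl⟩, fun v hv => ?_⟩
  obtain ⟨w, hw, rfl⟩ := List.mem_map.1 hv
  obtain ⟨i, h2⟩ := hp' (bz w) (fun i hi i' hi' => by
    rw [mem_bz] at hi hi'
    rw [neg_lt_neg_iff, Nat.cast_lt]
    refine Finset.card_lt_card ⟨fun v hv => ?_, fun h => hi' ?_⟩
    · rw [Finset.mem_filter] at hv ⊢
      exact ⟨hv.1, (hl.2 v (List.mem_toFinset.1 hv.1) w hw).elim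
        (fun h => absurd (h hv.2) hi') fun h => h hi⟩
    · exact (Finset.mem_filter.1 (h (Finset.mem_filter.2 ⟨List.mem_toFinset.2 hw, hi⟩))).2)
  have hi0 : i ≠ 0 := fun h => by
    have : 0 < (bz w).card := Finset.card_pos.2 ⟨0, mem_bz.2 (w.refl 0)⟩
    rw [← h2, h] at this
    simp at this
  have hi7 : i < 7 := by
    by_contra hn
    have hl7 : p.length = 7 := hperm.length_eq
    rw [List.take_of_length_le (by omega), hperm.sum_eq] at h2
    have h3 : bz w = Finset.univ := Finset.eq_univ_of_card _ h2.symm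
    have h4 : ∀ t, w 0 t := fun t => mem_bz.1 (h3 ▸ Finset.mem_univ t)
    exact (hl.1 w hw).1 (eq_top_iff.2 fun t t' _ => w.trans (w.symm (h4 t)) (h4 t'))
  refine List.mem_map.2 ⟨i, ?_, by rw [h2]; rfl⟩
  simp only [List.mem_cons, List.not_mem_nil, or_false]; omega

theorem tor_base : Tor (QQ (Fin 14) lam) 5 := by
  obtain ⟨z, c, B, hc, hz, hk, hB, h1⟩ := torK
  obtain ⟨T, t0, t1, t2⟩ := exists_sub
  have hz' : z ∈ Ch (InK KF) := two_mem (hz ▸ bd_mem (InK.her KF) hc)
  refine ⟨T z, T c, B ∘ₗ push gz, map_mem _ _ (fun l hl => Ch_mono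
    (fun m hm => ⟨hm.1, fun x hx => cutF_sub hl (hm.2 x hx)⟩) (t1 l)) hc,
    by rw [t2, hz, map_smul], fun l hl => by simpa using hk (l.map gz) (by simpa using hl),
    fun l hl => ?_, ?_⟩
  · rw [LinearMap.comp_apply, ← bd_push, push_gen]
    exact hB _ (gen_mem (chn_gz hl))
  · obtain ⟨b, hb, hb'⟩ := carried_id KF (push gz ∘ₗ T) (by simp [t0]) (fun l hl => by
      refine push_mem gz (fun m hm v hv => ?_) (t1 l)
      obtain ⟨x, hx, rfl⟩ := List.mem_map.1 hv
      obtain ⟨S, h1, h2, rfl⟩ := hm.2 x hx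
      obtain ⟨U, ⟨p, hp, rfl⟩, hU⟩ := hl
      exact h2 _ (gz_cutP h1 fun h => (leaf2_of_perm hp).1 (hU _ (h2 _ h))))
      (fun c => by simp [bd_push, t2]) hz' (bd_of_two hz)
    have := hB b hb
    rw [hb', map_sub, sub_eq_zero, h1] at this
    exact this

end base

end Pool.Agent.P.MP_22a609_co
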