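import Pool.Agent.P.MP_22a609_co.Sorted

namespace Pool.Agent.P.MP_22a609_co

section nrm

variable {ι : Type} [Fintype ι]

noncomputable def nrm (u : ι → ℝ) : ι → ℝ := (Real.sqrt (∑ j, u j ^ 2))⁻¹ • u

theorem sumsq_pos {u : ι → ℝ} (hu : u ≠ 0) : 0 < ∑ j, u j ^ 2 := by
  obtain ⟨j, hj⟩ := Function.ne_iff.1 hu
  exact Finset.sum_pos' (fun i _ => sq_nonneg _) ⟨j, Finset.mem_univ _, by
    have : u j ≠ 0 := hj
    positivity⟩

theorem sumsq_nrm {u : ι → ℝ} (hu : u ≠ 0) : ∑ j, nrm u j ^ 2 = 1 := by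
  have h := sumsq_pos hu
  simp only [nrm, Pi.smul_apply, smul_eq_mul, mul_pow, inv_pow]
  rw [← Finset.mul_sum, Real.sq_sqrt h.le, inv_mul_cancel₀ h.ne']

theorem nrm_smul {y : ι → ℝ} (hy : ∑ j, y j ^ 2 = 1) {c : ℝ} (hc : 0 < c) : nrm (c • y) = y := by
  simp only [nrm, Pi.smul_apply, smul_eq_mul, mul_pow]
  rw [← Finset.mul_sum, hy, mul_one, Real.sqrt_sq hc.le, smul_smul, inv_mul_cancel₀ hc.ne',
    one_smul]

theorem continuous_nrm {T : Type} [TopologicalSpace T] {u : T → ι → ℝ} (hu : Continuous u)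
    (h0 : ∀ t, u t ≠ 0) : Continuous fun t => nrm (u t) := by
  unfold nrm
  have h1 : Continuous fun t => Real.sqrt (∑ j, u t j ^ 2) :=
    Real.continuous_sqrt.comp (continuous_finsetSum _ fun j _ =>
      ((continuous_apply j).comp hu).pow 2)
  exact (h1.inv₀ fun t => (Real.sqrt_pos.2 (sumsq_pos (h0 t))).ne').smul hu

theorem nrm_eq {u : ι → ℝ} (hu : u ≠ 0) : ∃ c : ℝ, 0 < c ∧ nrm u = c • u :=
  ⟨_, inv_pos.2 (Real.sqrt_pos.2 (sumsq_pos hu)), rfl⟩

end nrm

variable {k : ℕ} (d : Fin k → ℕ)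

abbrev VL : Type := Option (Σ i : Fin k, Fin (d i + 1))

def Fi (i : Fin k) : Set (VL d) := {w | w = none ∨ ∃ j, w = some ⟨i, j⟩}

def LL : Set (Set (VL d)) := {U | U = {none} ∨ ∃ i, ∃ v ∈ Fi d i, U = Fi d i \ {v}}

theorem noTwo_LL : NoTwo (LL d) := by
  classical
  let _ : LinearOrder (VL d) := LinearOrder.lift' (Fintype.equivFin (VL d)) (Equiv.injective _)
  refine noTwo_of_cone _ none ?_
  rintro U (rfl | ⟨i, v0, hv0, rfl⟩) v hv
  · exact ⟨_, Or.inl rfl, rfl, fun w hw _ => hw⟩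
  · by_cases h : v0 = none
    · subst h
      exact ⟨_, Or.inr ⟨i, v, hv.1, rfl⟩, ⟨Or.inl rfl, fun h => hv.2 h.symm⟩,
        fun w hw hwv => ⟨hw.1, hwv⟩⟩
    · exact ⟨_, Or.inr ⟨i, v0, hv0, rfl⟩, ⟨Or.inl rfl, fun h' => h h'.symm⟩, fun w hw _ => hw⟩

abbrev WW : Set ((i : Fin k) → Fin (d i + 1) → ℝ) :=
  {y | (∀ i, ∑ j, y i j ^ 2 = 1) ∧
    ∀ i i', i ≠ i' → y i = Pi.single 0 1 ∨ y i' = Pi.single 0 1}

section one

variable {n : ℕ}

noncomputable def mn (y : Fin (n + 1) → ℝ) : ℝ :=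
  min 0 (Finset.univ.inf' Finset.univ_nonempty y)

theorem continuous_mn : Continuous (mn : (Fin (n + 1) → ℝ) → ℝ) := by
  unfold mn
  refine continuous_const.min ?_
  exact Continuous.finset_inf'_apply _ fun i _ => continuous_apply i

theorem mn_le (y : Fin (n + 1) → ℝ) (j : Fin (n + 1)) : mn y ≤ y j :=
  (min_le_right _ _).trans (Finset.inf'_le _ (Finset.mem_univ j))

theorem mn_nonpos (y : Fin (n + 1) → ℝ) : mn y ≤ 0 := min_le_left _ _

theorem mn_cases (y : Fin (n + 1) → ℝ) : mn y = 0 ∨ ∃ j, mn y = y j := by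
  unfold mn
  rcases min_choice 0 (Finset.univ.inf' Finset.univ_nonempty y) with h | h
  · exact Or.inl h
  · obtain ⟨j, -, hj⟩ := Finset.exists_mem_eq_inf' Finset.univ_nonempty y
    exact Or.inr ⟨j, h.trans hj⟩

noncomputable def BB (y : Fin (n + 1) → ℝ) (j : Fin (n + 1)) : ℝ :=
  if j = 0 then - mn y else y j - mn y

noncomputable def SS (y : Fin (n + 1) → ℝ) : ℝ := ∑ j, BB y j + (y 0 - mn y)

theorem BB_nonneg (y : Fin (n + 1) → ℝ) (j : Fin (n + 1)) : 0 ≤ BB y j := by
  unfold BB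
  have := mn_le y j
  have := mn_nonpos y
  split_ifs <;> linarith

theorem continuous_BB (j : Fin (n + 1)) : Continuous fun y : Fin (n + 1) → ℝ => BB y j := by
  unfold BB
  have := continuous_mn (n := n)
  split_ifs <;> fun_prop

theorem continuous_SS : Continuous (SS : (Fin (n + 1) → ℝ) → ℝ) := by
  unfold SS
  have := continuous_mn (n := n)
  have := continuous_BB (n := n)
  fun_prop

theorem SS_pos {y : Fin (n + 1) → ℝ} (hy : ∑ j, y j ^ 2 = 1) : 0 < SS y := by
  have h1 : 0 ≤ ∑ j, BB y j := Finset.sum_nonneg fun j _ => BB_nonneg y j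
  have h2 := mn_le y 0
  by_contra hn
  have h3 : ∑ j, BB y j = 0 := by unfold SS at hn; linarith
  have h4 : y 0 = mn y := by unfold SS at hn; linarith
  rw [Finset.sum_eq_zero_iff_of_nonneg fun j _ => BB_nonneg y j] at h3
  have h5 : mn y = 0 := by simpa [BB] using h3 0 (Finset.mem_univ _)
  have h6 : ∀ j, y j = 0 := by
    intro j
    by_cases hj : j = 0
    · rw [hj, h4, h5]
    · simpa [BB, hj, h5] using h3 j (Finset.mem_univ _)
  simp [h6] at hy

theorem BB_base (j : Fin (n + 1)) : BB (Pi.single 0 1 : Fin (n + 1) → ℝ) j = 0 := by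
  have h : mn (Pi.single 0 1 : Fin (n + 1) → ℝ) = 0 := by
    rcases mn_cases (Pi.single 0 1 : Fin (n + 1) → ℝ) with h | ⟨j, h⟩
    · exact h
    · refine le_antisymm (mn_nonpos _) ?_
      rw [h, Pi.single_apply]
      split_ifs <;> norm_num
  unfold BB
  split_ifs with hj
  · simp [h]
  · simp [h, hj]

noncomputable def uu (b : Fin (n + 1) → ℝ) (j : Fin (n + 1)) : ℝ :=
  if j = 0 then (1 - ∑ j', b j') - b 0 else b j - b 0

theorem continuous_uu : Continuous (uu : (Fin (n + 1) → ℝ) → Fin (n + 1) → ℝ) := by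
  refine continuous_pi fun j => ?_
  unfold uu
  split_ifs <;> fun_prop

theorem uu_zero : uu (fun _ : Fin (n + 1) => (0 : ℝ)) = Pi.single 0 1 := by
  funext j
  unfold uu
  rw [Pi.single_apply]
  split_ifs <;> simp

theorem uu_BB {y : Fin (n + 1) → ℝ} (hy : ∑ j, y j ^ 2 = 1) :
    uu (fun j => BB y j / SS y) = (SS y)⁻¹ • y := by
  have h := SS_pos hy
  funext j
  unfold uu
  rw [← Finset.sum_div]
  have e : ∑ j, BB y j = SS y - (y 0 - mn y) := by unfold SS; ring
  split_ifs with hj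
  · rw [e, hj]
    simp only [BB, if_true, Pi.smul_apply, smul_eq_mul]
    field_simp
    ring
  · simp only [BB, if_true, if_neg hj, Pi.smul_apply, smul_eq_mul]
    field_simp
    ring

theorem sum_single_sq : ∑ j, (Pi.single 0 1 : Fin (n + 1) → ℝ) j ^ 2 = 1 := by
  rw [Finset.sum_eq_single 0] <;> simp +contextual

end one

noncomputable def pW (y : (i : Fin k) → Fin (d i + 1) → ℝ) : VL d → ℝ
  | none => 1 - ∑ i, ∑ j, BB (y i) j / SS (y i)
  | some s => BB (y s.1) s.2 / SS (y s.1)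

theorem sum_VL (a : VL d → ℝ) : ∑ v, a v = a none + ∑ i, ∑ j, a (some ⟨i, j⟩) := by
  rw [Fintype.sum_option, Fintype.sum_sigma]

theorem pW_mem (y : WW d) : pW d y ∈ Rea (LL d) := by
  obtain ⟨y, hy1, hy2⟩ := y
  have hsum : ∑ v, pW d y v = 1 := by
    rw [sum_VL]
    simp [pW]
  have hnn : ∀ s, 0 ≤ pW d y (some s) := fun s =>
    div_nonneg (BB_nonneg _ _) (SS_pos (hy1 _)).le
  by_cases hall : ∀ i, y i = Pi.single 0 1
  · have h0 : ∀ s, pW d y (some s) = 0 := fun s => by simp [pW, hall, BB_base]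
    refine ⟨{none}, Or.inl rfl, fun v => ?_, hsum, fun v hv => ?_⟩
    · cases v with
      | none => simp [pW, hall, BB_base]
      | some s => exact hnn s
    · cases v with
      | none => rfl
      | some s => exact absurd (h0 s) hv
  · push Not at hall
    obtain ⟨i, hi⟩ := hall
    have hoth : ∀ i', i' ≠ i → y i' = Pi.single 0 1 := fun i' h =>
      (hy2 i' i h).resolve_right hi
    have hS := SS_pos (hy1 i)
    have hnone : pW d y none = (y i 0 - mn (y i)) / SS (y i) := by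
      simp only [pW]
      rw [Finset.sum_eq_single i (fun i' _ h => by simp [hoth i' h, BB_base]) (by simp),
        ← Finset.sum_div]
      have e : ∑ j, BB (y i) j = SS (y i) - (y i 0 - mn (y i)) := by unfold SS; ring
      rw [e]
      field_simp
      ring
    have hz : ∃ v ∈ Fi d i, pW d y v = 0 := by
      rcases mn_cases (y i) with h | ⟨j, h⟩
      · exact ⟨some ⟨i, 0⟩, Or.inr ⟨0, rfl⟩, by simp [pW, BB, h]⟩
      · by_cases hj : j = 0
        · exact ⟨none, Or.inl rfl, by rw [hnone, h, hj]; simp⟩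
        · exact ⟨some ⟨i, j⟩, Or.inr ⟨j, rfl⟩, by simp [pW, BB, h, hj]⟩
    obtain ⟨v0, hv0, hv0'⟩ := hz
    refine ⟨_, Or.inr ⟨i, v0, hv0, rfl⟩, fun v => ?_, hsum, fun v hv => ⟨?_, ?_⟩⟩
    · cases v with
      | none => rw [hnone]; exact div_nonneg (by linarith [mn_le (y i) 0]) hS.le
      | some s => exact hnn s
    · cases v with
      | none => exact Or.inl rfl
      | some s =>
        obtain ⟨i', j⟩ := s
        by_cases h : i' = i
        · subst h; exact Or.inr ⟨j, rfl⟩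
        · exact absurd (by simp [pW, hoth i' h, BB_base]) hv
    · rintro rfl
      exact hv hv0'

theorem continuous_pW : Continuous fun y : WW d => pW d y := by
  have h : ∀ (i : Fin k) (j : Fin (d i + 1)),
      Continuous fun y : WW d => BB (y.1 i) j / SS (y.1 i) := fun i j =>
    ((continuous_BB j).comp ((continuous_apply i).comp continuous_subtype_val)).div
      (continuous_SS.comp ((continuous_apply i).comp continuous_subtype_val))
      fun y => (SS_pos (y.2.1 i)).ne'
  refine continuous_pi fun v => ?_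
  cases v with
  | none => simp only [pW]; fun_prop
  | some s => exact h s.1 s.2

noncomputable def pMap : C(WW d, Rea (LL d)) :=
  ⟨fun y => ⟨pW d y, pW_mem d y⟩, (continuous_pW d).subtype_mk _⟩

theorem rea_cases (a : Rea (LL d)) : (∀ i j, a.1 (some ⟨i, j⟩) = 0) ∨
    ∃ i, (∀ i', i' ≠ i → ∀ j, a.1 (some ⟨i', j⟩) = 0) ∧ ∃ v ∈ Fi d i, a.1 v = 0 := by
  obtain ⟨a, U, hU | ⟨i, v, hv, hU⟩, ha⟩ := a
  · left
    intro i j
    by_contra h
    have := ha.2.2 _ h
    simp [hU] at this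
  · right
    refine ⟨i, fun i' hi' j => ?_, v, hv, ?_⟩
    · by_contra h
      have := ha.2.2 _ h
      rw [hU] at this
      rcases this.1 with h | ⟨j', h⟩
      · simp at h
      · simp only [Option.some.injEq, Sigma.mk.injEq] at h
        exact hi' h.1
    · by_contra h
      have := ha.2.2 _ h
      rw [hU] at this
      exact this.2 rfl

theorem uu_ne (a : Rea (LL d)) (i : Fin k) : uu (fun j => a.1 (some ⟨i, j⟩)) ≠ 0 := by
  have hbase : (∀ j, a.1 (some ⟨i, j⟩) = 0) → uu (fun j => a.1 (some ⟨i, j⟩)) ≠ 0 := by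
    intro h h'
    simp only [h, uu_zero] at h'
    simpa using congrFun h' 0
  rcases rea_cases d a with h | ⟨i0, h1, v, hv, hv0⟩
  · exact hbase (h i)
  · by_cases hi : i = i0
    · subst hi
      intro h
      have hsum : a.1 none + ∑ j, a.1 (some ⟨i, j⟩) = 1 := by
        obtain ⟨U, -, ha⟩ := a.2
        have := ha.2.1
        rwa [sum_VL, Finset.sum_eq_single i (fun i' _ h => by simp [h1 i' h]) (by simp)] at this
      have h2 : ∀ j, a.1 (some ⟨i, j⟩) = a.1 (some ⟨i, 0⟩) := by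
        intro j
        by_cases hj : j = 0
        · rw [hj]
        · have := congrFun h j
          simp only [uu, if_neg hj, Pi.zero_apply] at this
          linarith
      have h3 : a.1 none = a.1 (some ⟨i, 0⟩) := by
        have := congrFun h 0
        simp only [uu, if_true, Pi.zero_apply] at this
        linarith
      have h4 : a.1 (some ⟨i, 0⟩) = 0 := by
        rcases hv with rfl | ⟨j, rfl⟩
        · rw [← h3, hv0]
        · rw [← h2 j, hv0]
      simp [h2, h3, h4] at hsum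
    · exact hbase (h1 i hi)

theorem qW_mem (a : Rea (LL d)) : (fun i => nrm (uu fun j => a.1 (some ⟨i, j⟩))) ∈ WW d := by
  have hbase : ∀ i, (∀ j, a.1 (some ⟨i, j⟩) = 0) →
      nrm (uu fun j => a.1 (some ⟨i, j⟩)) = Pi.single 0 1 := by
    intro i h
    simp only [h, uu_zero]
    simpa using nrm_smul (sum_single_sq (n := d i)) one_pos
  refine ⟨fun i => sumsq_nrm (uu_ne d a i), fun i i' hii => ?_⟩
  rcases rea_cases d a with h | ⟨i0, h1, -⟩
  · exact Or.inl (hbase i (h i))
  · by_cases hi : i = i0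
    · exact Or.inr (hbase i' (h1 i' (fun h => hii (hi.trans h.symm))))
    · exact Or.inl (hbase i (h1 i hi))

noncomputable def qMap : C(Rea (LL d), WW d) :=
  ⟨fun a => ⟨fun i => nrm (uu fun j => a.1 (some ⟨i, j⟩)), qW_mem d a⟩,
    Continuous.subtype_mk (continuous_pi fun i =>
      continuous_nrm (continuous_uu.comp (continuous_pi fun j =>
        (continuous_apply (some ⟨i, j⟩ : VL d)).comp continuous_subtype_val))
        fun a => uu_ne d a i) _⟩

theorem qMap_pMap (y : WW d) : qMap d (pMap d y) = y := by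
  apply Subtype.ext
  funext i
  change nrm (uu fun j => BB (y.1 i) j / SS (y.1 i)) = y.1 i
  rw [uu_BB (y.2.1 i), nrm_smul (y.2.1 i) (inv_pos.2 (SS_pos (y.2.1 i)))]

end Pool.Agent.P.MP_22a609_co
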