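import Pool.Agent.P.MP_22a609_co.Cert2
import Pool.Agent.P.MP_22a609_co.Order
import Pool.Agent.P.MP_22a609_co.Wedge

namespace Pool.Agent.P.MP_22a609_co

def part : Nat.Partition 14 where
  parts := (lam : Multiset ℕ)
  parts_pos := by decide
  parts_sum := by decide

abbrev XX : Set (Fin 14 → ℝ) :=
  {v | ∑ i, v i ^ 2 = 1 ∧
    ∃ s : Setoid (Fin 14),
      (∃ f : Fin 14 → ℕ, s = Setoid.ker f ∧
        Multiset.map (fun a => (Finset.univ.filter (fun z => f z = a)).card)
          (Finset.univ.image f).val = part.parts) ∧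
      ∀ i j, s.r i j → v i = v j}

noncomputable def xa (a : Fin 15 → ℝ) (t : Fin 14) : ℝ :=
  a 0 - a 14 + ∑ j : Fin 15, if 0 < j.val ∧ j.val ≤ t.val then a j else 0

theorem continuous_xa : Continuous xa := by
  refine continuous_pi fun t => ?_
  unfold xa
  refine Continuous.add (by fun_prop) (continuous_finsetSum _ fun j _ => ?_)
  split_ifs <;> fun_prop

theorem xa_mono {a : Fin 15 → ℝ} (ha : ∀ v, 0 ≤ a v) : Monotone (xa a) := by
  intro t t' h
  unfold xa
  refine add_le_add le_rfl (Finset.sum_le_sum fun j _ => ?_)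
  have h' : t.val ≤ t'.val := h
  split_ifs with h1 h2 h2
  · exact le_rfl
  · omega
  · exact ha j
  · exact le_rfl

theorem xa_zero (a : Fin 15 → ℝ) : xa a 0 = a 0 - a 14 := by
  simp [xa, Fin.sum_univ_succ]

theorem rea_KK (a : Rea KK) : a.1 0 = 0 ∨ a.1 14 = 0 := by
  obtain ⟨a, U, ⟨p, hp, b, rfl⟩, ha⟩ := a
  have h := leaf2_of_perm hp
  cases b with
  | true =>
    right
    by_contra h1
    have := ha.2.2 _ h1
    simp [fac, h.2.1] at this
  | false =>
    left
    by_contra h1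
    have := ha.2.2 _ h1
    simp [fac, h.1] at this

theorem xa_ne (a : Rea KK) : xa a.1 ≠ 0 := by
  intro h
  have h0 := congrFun h 0
  have h13 := congrFun h 13
  rw [xa_zero] at h0
  obtain ⟨U, -, ha⟩ := a.2
  have hs := ha.2.1
  have hc := rea_KK a
  simp [xa, Fin.sum_univ_succ] at h13 hs h0
  rcases hc with hc | hc <;> linarith

theorem xa_blk {a : Fin 15 → ℝ} {p : List ℕ} {b : Bool} (ha : a ∈ Spx {v | v ∈ fac b p})
    {t t' : Fin 14} (h : blk p t = blk p t') : xa a t = xa a t' := by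
  wlog htt : t.val ≤ t'.val generalizing t t'
  · exact (this h.symm (by omega)).symm
  have hsub : ((ps p).filter fun j => decide (j.val ≤ t.val)).Sublist
      ((ps p).filter fun j => decide (j.val ≤ t'.val)) :=
    List.monotone_filter_right _ (fun j hj => by simp at hj ⊢; omega)
  have heq := hsub.eq_of_length h
  unfold xa
  congr 1
  refine Finset.sum_congr rfl fun j _ => ?_
  by_cases hj : a j = 0
  · simp [hj]
  · have hm := ha.2.2 j hj
    by_cases h1 : 0 < j.val ∧ j.val ≤ t'.val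
    · have hm' : j ∈ ps p := by
        have := t'.2
        cases b with
        | true =>
          simp only [fac, if_true, Set.mem_ofPred_eq, List.mem_cons] at hm
          rcases hm with rfl | hm
          · simp at h1
          · exact hm
        | false =>
          simp only [fac, Bool.false_eq_true, if_false, Set.mem_ofPred_eq, List.mem_append,
            List.mem_singleton] at hm
          rcases hm with hm | rfl
          · exact hm
          · simp at h1; omega
      have : j ∈ (ps p).filter fun j => decide (j.val ≤ t.val) := by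
        rw [heq]; simp [hm', h1.2]
      have h2 : j.val ≤ t.val := by simpa using (List.mem_filter.1 this).2
      rw [if_pos h1, if_pos ⟨h1.1, h2⟩]
    · rw [if_neg h1, if_neg (by omega)]

theorem iX_mem (a : Rea KK) : nrm (xa a.1) ∈ XX := by
  refine ⟨sumsq_nrm (xa_ne a), ?_⟩
  obtain ⟨U, ⟨p, hp, b, rfl⟩, ha⟩ := a.2
  refine ⟨Setoid.ker (blk p), ⟨blk p, rfl, (leaf2_of_perm hp).2.2⟩, fun i j hij => ?_⟩
  simp only [nrm, Pi.smul_apply]
  rw [xa_blk ha hij]

noncomputable def iMap : C(Rea KK, XX) :=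
  ⟨fun a => ⟨nrm (xa a.1), iX_mem a⟩,
    Continuous.subtype_mk (continuous_nrm (continuous_xa.comp continuous_subtype_val) xa_ne) _⟩

noncomputable def cut (j : ℕ) (x : Fin 14 → ℝ) : ℝ :=
  ∑ S ∈ Finset.powersetCard j (Finset.univ : Finset (Fin 14)),
    ∏ i ∈ S, ∏ i' ∈ Sᶜ, max (x i' - x i) 0

theorem cut_term_nonneg (x : Fin 14 → ℝ) (S : Finset (Fin 14)) :
    0 ≤ ∏ i ∈ S, ∏ i' ∈ Sᶜ, max (x i' - x i) 0 :=
  Finset.prod_nonneg fun _ _ => Finset.prod_nonneg fun _ _ => le_max_right _ _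

theorem cut_ne {j : ℕ} {x : Fin 14 → ℝ} (h : cut j x ≠ 0) :
    ∃ S : Finset (Fin 14), S.card = j ∧ ∀ i ∈ S, ∀ i', i' ∉ S → x i < x i' := by
  obtain ⟨S, hS, h⟩ := Finset.exists_ne_zero_of_sum_ne_zero h
  refine ⟨S, (Finset.mem_powersetCard.1 hS).2, fun i hi i' hi' => ?_⟩
  have := Finset.prod_ne_zero_iff.1 (Finset.prod_ne_zero_iff.1 h i hi) i' (Finset.mem_compl.2 hi')
  by_contra hn
  exact this (max_eq_right (by linarith))

theorem cut_pos {x : Fin 14 → ℝ} {S : Finset (Fin 14)}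
    (h : ∀ i ∈ S, ∀ i', i' ∉ S → x i < x i') : 0 < cut S.card x :=
  Finset.sum_pos' (fun S _ => cut_term_nonneg x S) ⟨S, by simp,
    Finset.prod_pos fun i hi => Finset.prod_pos fun i' hi' =>
      lt_max_of_lt_left (by linarith [h i hi i' (Finset.mem_compl.1 hi')])⟩

noncomputable def ww (x : Fin 14 → ℝ) (v : Fin 15) : ℝ :=
  if v = 0 then ∏ i, max (x i) 0 else if v = 14 then ∑ i, max (- x i) 0 else cut v.val x

theorem ww_nonneg (x : Fin 14 → ℝ) (v : Fin 15) : 0 ≤ ww x v := by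
  unfold ww
  split_ifs
  · exact Finset.prod_nonneg fun _ _ => le_max_right _ _
  · exact Finset.sum_nonneg fun _ _ => le_max_right _ _
  · exact Finset.sum_nonneg fun S _ => cut_term_nonneg x S

theorem continuous_ww (v : Fin 15) : Continuous fun x => ww x v := by
  unfold ww cut
  split_ifs <;> fun_prop

theorem ww_zero_ne {x : Fin 14 → ℝ} (h : ww x 0 ≠ 0) (i : Fin 14) : 0 < x i := by
  simp only [ww, if_true] at h
  have := Finset.prod_ne_zero_iff.1 h i (Finset.mem_univ _)
  by_contra hn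
  exact this (max_eq_right (by linarith))

theorem ww_last_ne {x : Fin 14 → ℝ} (h : ww x 14 ≠ 0) : ∃ i, x i < 0 := by
  have e : ww x 14 = ∑ i, max (- x i) 0 := by simp [ww]
  rw [e] at h
  obtain ⟨i, -, hi⟩ := Finset.exists_ne_zero_of_sum_ne_zero h
  refine ⟨i, ?_⟩
  by_contra hn
  exact hi (max_eq_right (by linarith))

theorem ww_mid {x : Fin 14 → ℝ} {v : Fin 15} (h0 : v ≠ 0) (h1 : v ≠ 14) :
    ww x v = cut v.val x := by simp [ww, h0, h1]

theorem ww_sum_pos {x : Fin 14 → ℝ} (hx : ∑ i, x i ^ 2 = 1) : 0 < ∑ v, ww x v := by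
  suffices h : ∃ v, 0 < ww x v by
    obtain ⟨v, hv⟩ := h
    exact Finset.sum_pos' (fun v _ => ww_nonneg x v) ⟨v, Finset.mem_univ _, hv⟩
  by_cases h1 : ∃ i, x i < 0
  · obtain ⟨i, hi⟩ := h1
    refine ⟨14, ?_⟩
    have e : ww x 14 = ∑ i, max (- x i) 0 := by simp [ww]
    rw [e]
    exact Finset.sum_pos' (fun _ _ => le_max_right _ _)
      ⟨i, Finset.mem_univ _, lt_max_of_lt_left (by linarith)⟩
  push Not at h1
  by_cases h2 : ∀ i, 0 < x i
  · refine ⟨0, ?_⟩
    simp only [ww, if_true]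
    exact Finset.prod_pos fun i _ => lt_max_of_lt_left (h2 i)
  push Not at h2
  obtain ⟨i0, hi0⟩ := h2
  set S : Finset (Fin 14) := Finset.univ.filter fun i => x i = 0 with hS
  have hc1 : 0 < S.card := Finset.card_pos.2 ⟨i0, by simp [hS, le_antisymm hi0 (h1 i0)]⟩
  have hc2 : S.card < 14 := by
    have : S ≠ Finset.univ := by
      intro h
      have : ∀ i, x i = 0 := fun i => by
        have : i ∈ S := h ▸ Finset.mem_univ i
        simpa [hS] using this
      simp [this] at hx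
    simpa using Finset.card_lt_card (Finset.ssubset_univ_iff.2 this)
  refine ⟨⟨S.card, by omega⟩, ?_⟩
  rw [ww_mid (Fin.ne_of_val_ne (by change S.card ≠ 0; omega))
    (Fin.ne_of_val_ne (by change S.card ≠ 14; omega))]
  change 0 < cut S.card x
  refine cut_pos fun i hi i' hi' => ?_
  simp only [hS, Finset.mem_filter, Finset.mem_univ, true_and] at hi hi'
  rw [hi]
  exact lt_of_le_of_ne (h1 i') (Ne.symm hi')

theorem exists_perm (x : XX) : ∃ p : List ℕ, p.Perm lam ∧ ∀ v : Fin 15, v ≠ 0 → v ≠ 14 →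
    cut v.val x.1 ≠ 0 → v ∈ ps p := by
  obtain ⟨-, s, ⟨f, hs, hf⟩, hx⟩ := x.2
  obtain ⟨p, hp, hp'⟩ := exists_order f x.1 (fun i j h => hx i j (by rw [hs]; exact h))
  have hperm : p.Perm lam := Multiset.coe_eq_coe.1 (hp.trans hf)
  refine ⟨p, hperm, fun v hv0 hv1 hc => ?_⟩
  obtain ⟨S, hS, hcut⟩ := cut_ne hc
  obtain ⟨i, h2⟩ := hp' S hcut
  rw [hS] at h2
  have hv0' : v.val ≠ 0 := fun h => hv0 (Fin.ext h)
  have hv1' : v.val ≠ 14 := fun h => hv1 (Fin.ext h)
  have hi0 : i ≠ 0 := fun h => hv0' (by rw [← h2, h]; simp)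
  have hi7 : i < 7 := by
    by_contra hn
    have hl : p.length = 7 := hperm.length_eq
    rw [List.take_of_length_le (by omega), hperm.sum_eq] at h2
    exact hv1' h2.symm
  refine List.mem_map.2 ⟨i, ?_, ?_⟩
  · simp only [List.mem_cons, List.not_mem_nil, or_false]; omega
  · rw [h2]; exact Fin.ext (Nat.mod_eq_of_lt v.2)

theorem rX_mem (x : XX) : (fun v => ww x.1 v / ∑ v, ww x.1 v) ∈ Rea KK := by
  have hpos := ww_sum_pos x.2.1
  obtain ⟨p, hp, hps⟩ := exists_perm x
  have hnn : ∀ v, 0 ≤ ww x.1 v / ∑ v, ww x.1 v := fun v => div_nonneg (ww_nonneg _ _) hpos.le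
  have hsum : ∑ v, ww x.1 v / ∑ v, ww x.1 v = 1 := by
    rw [← Finset.sum_div, div_self hpos.ne']
  by_cases h14 : ww x.1 14 = 0
  · refine ⟨_, ⟨p, hp, true, rfl⟩, hnn, hsum, fun v hv => ?_⟩
    have hv' : ww x.1 v ≠ 0 := fun h => hv (by simp [h])
    simp only [fac, if_true, Set.mem_ofPred_eq, List.mem_cons]
    by_cases h0 : v = 0
    · exact Or.inl h0
    · have h1 : v ≠ 14 := fun h => hv' (h ▸ h14)
      exact Or.inr (hps v h0 h1 (ww_mid h0 h1 ▸ hv'))
  · refine ⟨_, ⟨p, hp, false, rfl⟩, hnn, hsum, fun v hv => ?_⟩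
    have hv' : ww x.1 v ≠ 0 := fun h => hv (by simp [h])
    simp only [fac, Bool.false_eq_true, if_false, Set.mem_ofPred_eq, List.mem_append,
      List.mem_singleton]
    by_cases h1 : v = 14
    · exact Or.inr h1
    · have h0 : v ≠ 0 := by
        rintro rfl
        obtain ⟨i, hi⟩ := ww_last_ne h14
        exact absurd (ww_zero_ne hv' i) hi.not_gt
      exact Or.inl (hps v h0 h1 (ww_mid h0 h1 ▸ hv'))

noncomputable def rMap : C(XX, Rea KK) :=
  ⟨fun x => ⟨fun v => ww x.1 v / ∑ v, ww x.1 v, rX_mem x⟩,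
    Continuous.subtype_mk (continuous_pi fun v =>
      ((continuous_ww v).comp continuous_subtype_val).div
        (continuous_finsetSum _ fun v _ => (continuous_ww v).comp continuous_subtype_val)
        fun x => (ww_sum_pos x.2.1).ne') _⟩

theorem rMap_iMap (a : Rea KK) (v : Fin 15) (h : (rMap (iMap a)).1 v ≠ 0) : a.1 v ≠ 0 := by
  have h1 : ww (nrm (xa a.1)) v ≠ 0 := fun h' => h (by
    change ww (nrm (xa a.1)) v / _ = 0
    simp [h'])
  obtain ⟨c, hc, hce⟩ := nrm_eq (xa_ne a)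
  rw [hce] at h1
  obtain ⟨U, -, ha⟩ := a.2
  have hmono := xa_mono ha.1
  intro hav
  by_cases h0 : v = 0
  · subst h0
    have h2 := ww_zero_ne h1 0
    simp only [Pi.smul_apply, smul_eq_mul, xa_zero, hav] at h2
    have := ha.1 14
    nlinarith
  by_cases h14 : v = 14
  · subst h14
    obtain ⟨i, hi⟩ := ww_last_ne h1
    have h2 := hmono (Fin.zero_le i)
    rw [xa_zero, hav] at h2
    have := ha.1 0
    simp only [Pi.smul_apply, smul_eq_mul] at hi
    nlinarith
  rw [ww_mid h0 h14] at h1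
  obtain ⟨S, hS, hcut⟩ := cut_ne h1
  have hcut' : ∀ i ∈ S, ∀ i', i' ∉ S → xa a.1 i < xa a.1 i' := fun i hi i' hi' => by
    have := hcut i hi i' hi'
    simp only [Pi.smul_apply, smul_eq_mul] at this
    exact lt_of_mul_lt_mul_left this hc.le
  have hv0 : v.val ≠ 0 := fun h => h0 (Fin.ext h)
  have hv1 : v.val ≠ 14 := fun h => h14 (Fin.ext h)
  have hv2 := v.2
  set t1 : Fin 14 := ⟨v.val, by omega⟩ with ht1
  set t0 : Fin 14 := ⟨v.val - 1, by omega⟩ with ht0
  have e1 : t1 ∉ S := by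
    intro hm
    have : Finset.Iic t1 ⊆ S := fun t ht => by
      by_contra hn
      exact absurd (hcut' t1 hm t hn) (hmono (Finset.mem_Iic.1 ht)).not_gt
    have := Finset.card_le_card this
    rw [Fin.card_Iic, hS] at this
    simp [ht1] at this
  have e0 : t0 ∈ S := by
    by_contra hm
    have : S ⊆ Finset.Iio t0 := fun t ht => by
      by_contra hn
      exact absurd (hcut' t ht t0 hm) (hmono (by simpa using hn)).not_gt
    have := Finset.card_le_card this
    rw [Fin.card_Iio, hS] at this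
    simp only [ht0] at this
    omega
  have e2 : xa a.1 t0 = xa a.1 t1 := by
    unfold xa
    congr 1
    refine Finset.sum_congr rfl fun j _ => ?_
    by_cases hj : j = v
    · simp [hj, hav]
    · have : j.val ≠ v.val := fun h => hj (Fin.ext h)
      simp only [ht0, ht1]
      split_ifs <;> first | rfl | omega
  exact absurd (hcut' t0 e0 t1 e1) (by rw [e2]; exact lt_irrefl _)

theorem KK_nonempty : KK.Nonempty := ⟨_, lam, List.Perm.refl _, true, rfl⟩

theorem XX_nonempty : Nonempty XX :=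
  ⟨iMap ⟨Pi.single 0 1, _, ⟨lam, List.Perm.refl _, true, rfl⟩, single_mem_Spx (by simp [fac])⟩⟩

theorem not_wedge {k : ℕ} (d : Fin k → ℕ) (e : ContinuousMap.HomotopyEquiv XX (WW d)) : False := by
  refine not_noTwo_KK (noTwo_transfer KK (LL d) KK_nonempty ⟨_, Or.inl rfl⟩
    ((pMap d).comp (e.toFun.comp iMap)) (rMap.comp (e.invFun.comp (qMap d))) (rMap.comp iMap) ?_
    rMap_iMap (noTwo_LL d))
  have h1 : (rMap.comp (e.invFun.comp (qMap d))).comp ((pMap d).comp (e.toFun.comp iMap)) =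
      rMap.comp ((e.invFun.comp e.toFun).comp iMap) := by
    ext1 a
    simp [qMap_pMap]
  rw [h1]
  exact (ContinuousMap.Homotopic.refl rMap).comp (e.left_inv.comp (ContinuousMap.Homotopic.refl iMap))

end Pool.Agent.P.MP_22a609_co
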