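import Pool.Agent.P.MP_22a609_co.Geom

namespace Pool.Agent.P.MP_22a609_co

variable {W : Type} [LinearOrder W]

noncomputable def insL (x : W) : List W → C W
  | [] => gen [x]
  | y :: l => if x < y then gen (x :: y :: l) else if x = y then 0 else - cone y (insL x l)

noncomputable def ins (x : W) : C W →ₗ[ℤ] C W := ext (insL x)

noncomputable def srtL : List W → C W
  | [] => gen []
  | x :: l => ins x (srtL l)

noncomputable def srt : C W →ₗ[ℤ] C W := ext srtL

abbrev Srt (l : List W) : Prop := l.Pairwise (· < ·)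

theorem ins_gen_of_lt {x : W} {l : List W} (h : ∀ y ∈ l, x < y) :
    ins x (gen l) = gen (x :: l) := by
  cases l with
  | nil => simp [ins, insL]
  | cons y l => simp [ins, insL, h y (by simp)]

theorem ins_of_lt {x : W} {c : C W} (hc : c ∈ Ch (fun l => ∀ y ∈ l, x < y)) :
    ins x c = cone x c :=
  map_congr _ _ (fun l hl => by rw [ins_gen_of_lt hl, cone_gen]) hc

theorem ins_cone_self (x : W) (c : C W) : ins x (cone x c) = 0 := by
  have := lhom_ext (S := ins x ∘ₗ cone x) (T := 0) (fun l => by simp [ins, insL]) c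
  simpa using this

theorem ins_cone_gt {x y : W} (h : y < x) (c : C W) : ins x (cone y c) = - cone y (ins x c) := by
  have := lhom_ext (S := ins x ∘ₗ cone y) (T := - cone y ∘ₗ ins x) (fun l => by
    simp [ins, insL, h.not_gt, h.ne']) c
  simpa using this

theorem ins_gen_mem (x : W) {l : List W} (hl : Srt l) :
    ins x (gen l) ∈ Ch (fun m => Srt m ∧ ∀ v ∈ m, v = x ∨ v ∈ l) := by
  induction l with
  | nil =>
    rw [ins_gen_of_lt (by simp)]
    exact gen_mem ⟨by simp, by simp⟩
  | cons y l ih =>
    have hl' := List.pairwise_cons.1 hl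
    rcases lt_trichotomy x y with h | h | h
    · have : ∀ w ∈ y :: l, x < w := by
        intro w hw
        rcases List.mem_cons.1 hw with rfl | hw
        · exact h
        · exact h.trans (hl'.1 w hw)
      rw [ins_gen_of_lt this]
      exact gen_mem ⟨List.pairwise_cons.2 ⟨this, hl⟩, fun v hv => List.mem_cons.1 hv⟩
    · subst h
      rw [← cone_gen, ins_cone_self]
      exact Submodule.zero_mem _
    · rw [← cone_gen, ins_cone_gt h]
      refine Submodule.neg_mem _ (cone_mem y (fun m hm => ⟨List.pairwise_cons.2 ⟨?_, hm.1⟩, ?_⟩)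
        (ih hl'.2))
      · intro w hw
        rcases hm.2 w hw with rfl | h'
        · exact h
        · exact hl'.1 w h'
      · intro w hw
        rcases List.mem_cons.1 hw with rfl | hw
        · simp
        · rcases hm.2 w hw with rfl | h'
          · simp
          · simp [h']

theorem bd_ins_gen (x : W) {l : List W} (hl : Srt l) :
    bd (ins x (gen l)) = gen l - ins x (bd (gen l)) := by
  induction l with
  | nil =>
    rw [ins_gen_of_lt (by simp), bd_cons]
    simp
  | cons y l ih =>
    have hl' := List.pairwise_cons.1 hl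
    rcases lt_trichotomy x y with h | h | h
    · have : ∀ w ∈ y :: l, x < w := by
        intro w hw
        rcases List.mem_cons.1 hw with rfl | hw
        · exact h
        · exact h.trans (hl'.1 w hw)
      rw [ins_gen_of_lt this, bd_cons x, ins_of_lt (c := bd (gen (y :: l)))
        (Ch_mono (fun m hm w hw => this w (hm.1.subset hw)) (bd_gen_mem _))]
    · subst h
      rw [bd_cons, map_sub, ins_cone_self, ins_gen_of_lt hl'.1, ← cone_gen, ins_cone_self]
      simp
    · rw [bd_cons, map_sub, ← cone_gen, ins_cone_gt h, ins_cone_gt h, map_neg, bd_cone,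
        ih hl'.2, map_sub]
      abel

theorem bd_ins (x : W) {c : C W} (hc : c ∈ Ch Srt) : bd (ins x c) = c - ins x (bd c) := by
  have := map_congr (bd ∘ₗ ins x) (LinearMap.id - ins x ∘ₗ bd) (fun l hl => by
    simpa using bd_ins_gen x hl) hc
  simpa using this

theorem srt_cone (x : W) (c : C W) : srt (cone x c) = ins x (srt c) := by
  have := lhom_ext (S := srt ∘ₗ cone x) (T := ins x ∘ₗ srt) (fun l => by simp [srt, srtL]) c
  simpa using this

theorem srt_nil : srt (gen ([] : List W)) = gen [] := by simp [srt, srtL]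

theorem srt_gen_mem (l : List W) : srt (gen l) ∈ Ch (fun m => Srt m ∧ ∀ v ∈ m, v ∈ l) := by
  induction l with
  | nil => rw [srt_nil]; exact gen_mem ⟨by simp, by simp⟩
  | cons x l ih =>
    rw [← cone_gen, srt_cone]
    refine map_mem _ _ (fun m hm => Ch_mono (fun k hk => ⟨hk.1, fun v hv => ?_⟩)
      (ins_gen_mem x hm.1)) ih
    rcases hk.2 v hv with rfl | h
    · simp
    · simp [hm.2 v h]

theorem bd_srt (c : C W) : bd (srt c) = srt (bd c) := by
  have := lhom_ext (S := (bd : C W →ₗ[ℤ] C W) ∘ₗ srt) (T := srt ∘ₗ bd) (fun l => by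
    induction l with
    | nil => simp [srt_nil]
    | cons x l ih =>
      simp only [LinearMap.comp_apply] at ih ⊢
      rw [bd_cons, ← cone_gen, srt_cone, bd_ins x (Ch_mono (fun _ h => h.1) (srt_gen_mem l)), ih,
        map_sub, srt_cone]) c
  simpa using this

theorem srt_gen_of_srt {l : List W} (hl : Srt l) : srt (gen l) = gen l := by
  induction l with
  | nil => exact srt_nil
  | cons x l ih =>
    have hl' := List.pairwise_cons.1 hl
    rw [← cone_gen, srt_cone, ih hl'.2, ins_gen_of_lt hl'.1, cone_gen]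

theorem srt_mem (F : Set (Set W)) {c : C W} (hc : c ∈ Ch (InK F)) :
    srt c ∈ Ch (fun l => Srt l ∧ InK F l) :=
  map_mem _ _ (fun l ⟨U, hU, hl⟩ => Ch_mono
    (fun _ hm => ⟨hm.1, U, hU, fun v hv => hl v (hm.2 v hv)⟩) (srt_gen_mem l)) hc

theorem her_srt (F : Set (Set W)) : Her (fun l => Srt l ∧ InK F l) := fun l m h hl =>
  ⟨hl.1.sublist h, InK.her F l m h hl.2⟩

theorem noTwo_of_cone (F : Set (Set W)) (o : W)
    (hM : ∀ U ∈ F, ∀ v ∈ U, ∃ U' ∈ F, o ∈ U' ∧ ∀ w ∈ U, w ≠ v → w ∈ U') : NoTwo F := by
  intro z c hz hc hzc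
  have hz' := bd_of_two hzc
  have h1 : bd (srt c) ∈ Ch (fun m => InK F (o :: m)) := by
    refine map_mem _ _ (fun l hl => Ch_mono (fun m hm => ?_) (bd_gen_mem l)) (srt_mem F hc)
    obtain ⟨hs, U, hU, hl⟩ := hl
    have hnd : l.Nodup := hs.imp ne_of_lt
    have : ∃ v ∈ l, v ∉ m := by
      by_contra hn
      push Not at hn
      have := (List.subperm_of_subset hnd hn).length_le
      omega
    obtain ⟨v, hv, hvm⟩ := this
    obtain ⟨U', hU', ho, hw⟩ := hM U hU v (hl v hv)
    refine ⟨U', hU', fun w hw' => ?_⟩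
    rcases List.mem_cons.1 hw' with rfl | hw'
    · exact ho
    · exact hw w (hl w (hm.1.subset hw')) (fun h => hvm (h ▸ hw'))
  rw [bd_srt, hzc, map_smul] at h1
  have h2 : srt z ∈ Bd (InK F) :=
    ⟨cone o (srt z), cone_mem o (fun _ h => h) (two_mem h1), by
      rw [bd_cone, bd_srt, hz']; simp⟩
  have h3 := carried_id F srt srt_nil
    (fun l _ => Ch_mono (fun m hm => hm.2) (srt_gen_mem l)) bd_srt hz hz'
  simpa using Submodule.sub_mem _ h2 h3

theorem not_noTwo (F : Set (Set W)) (α : List W → ℤ) (c : C W)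
    (hc : c ∈ Ch (fun l => Srt l ∧ InK F l)) (heven : ∀ l, (2 : ℤ) ∣ bd c l)
    (h4 : ext α (bd c) % 4 = 2)
    (hα : ∀ l, Srt l → InK F l → (2 : ℤ) ∣ ext α (bd (gen l))) : ¬ NoTwo F := by
  intro hT
  set z : C W := Finsupp.mapRange (fun n : ℤ => n / 2) (by simp) (bd c) with hz
  have hzc : bd c = (2 : ℤ) • z := by
    ext l
    simp only [hz, Finsupp.smul_apply, Finsupp.mapRange_apply, smul_eq_mul]
    exact (Int.mul_ediv_cancel' (heven l)).symm
  have hz1 : z ∈ Ch (fun l => Srt l ∧ InK F l) := two_mem (hzc ▸ bd_mem (her_srt F) hc)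
  obtain ⟨b, hb, hbz⟩ := hT z c (Ch_mono (fun _ h => h.2) hz1) (Ch_mono (fun _ h => h.2) hc) hzc
  have h1 : srt z = z := by
    have := map_congr srt LinearMap.id (fun l hl => by simpa using srt_gen_of_srt hl.1) hz1
    simpa using this
  have h2 : z = bd (srt b) := by rw [bd_srt, hbz, h1]
  have h3 : (ext α ∘ₗ bd) (srt b) ∈ Submodule.span ℤ {(2 : ℤ)} := by
    refine map_mem _ _ (fun l hl => ?_) (srt_mem F hb)
    obtain ⟨k, hk⟩ := hα l hl.1 hl.2
    rw [Submodule.mem_span_singleton]
    exact ⟨k, by simp [hk, mul_comm]⟩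
  rw [LinearMap.comp_apply, ← h2, Submodule.mem_span_singleton] at h3
  obtain ⟨k, hk⟩ := h3
  rw [hzc, map_smul, ← hk] at h4
  simp only [smul_eq_mul] at h4
  omega

/-! computable chains -/

def bdT {Y : Type} : List Y → List (ℤ × List Y)
  | [] => []
  | x :: l => (1, l) :: (bdT l).map (fun p => (-p.1, x :: p.2))

noncomputable def toC {Y : Type} (M : List (ℤ × List Y)) : C Y :=
  (M.map fun p => p.1 • gen p.2).sum

theorem toC_cons {Y : Type} (p : ℤ × List Y) (M : List (ℤ × List Y)) :
    toC (p :: M) = p.1 • gen p.2 + toC M := by simp [toC]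

theorem toC_append {Y : Type} (M N : List (ℤ × List Y)) : toC (M ++ N) = toC M + toC N := by
  simp [toC]

theorem bd_gen_toC {Y : Type} (l : List Y) : bd (gen l) = toC (bdT l) := by
  induction l with
  | nil => simp [bdT, toC]
  | cons x l ih =>
    rw [bd_cons, ih, bdT, toC_cons, one_smul, sub_eq_add_neg]
    congr 1
    generalize bdT l = M
    induction M with
    | nil => simp [toC]
    | cons p M ih => rw [List.map_cons, toC_cons, toC_cons, ← ih]; simp; abel

def bdM {Y : Type} (M : List (ℤ × List Y)) : List (ℤ × List Y) :=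
  M.flatMap fun p => (bdT p.2).map fun q => (p.1 * q.1, q.2)

theorem bd_toC {Y : Type} (M : List (ℤ × List Y)) : bd (toC M) = toC (bdM M) := by
  induction M with
  | nil => simp [bdM, toC]
  | cons p M ih =>
    rw [toC_cons, map_add, ih, map_smul, bd_gen_toC]
    simp only [bdM, List.flatMap_cons, toC_append]
    congr 1
    generalize bdT p.2 = N
    induction N with
    | nil => simp [toC]
    | cons q N ih => rw [List.map_cons, toC_cons, toC_cons, ← ih, smul_add, mul_smul]

def evM {Y : Type} (α : List Y → ℤ) (M : List (ℤ × List Y)) : ℤ :=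
  (M.map fun p => p.1 * α p.2).sum

theorem ext_toC {Y : Type} (α : List Y → ℤ) (M : List (ℤ × List Y)) :
    ext α (toC M) = evM α M := by
  induction M with
  | nil => simp [evM, toC]
  | cons p M ih => rw [toC_cons, map_add, ih]; simp [evM]

theorem toC_mem {Y : Type} {P : List Y → Prop} {M : List (ℤ × List Y)} (h : ∀ p ∈ M, P p.2) :
    toC M ∈ Ch P := by
  induction M with
  | nil => simp [toC]
  | cons p M ih =>
    rw [toC_cons]
    exact Submodule.add_mem _ (Submodule.smul_mem _ _ (gen_mem (h p (by simp))))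
      (ih fun q hq => h q (by simp [hq]))

def xorM {Y : Type} (key : List Y → ℕ) : List (ℤ × List Y) → ℕ
  | [] => 0
  | p :: M => if p.1 % 2 = 0 then xorM key M else 2 ^ key p.2 ^^^ xorM key M

theorem toC_even {Y : Type} (key : List Y → ℕ) (P : List Y → Prop)
    (hkey : ∀ l m, P l → P m → key l = key m → l = m) (M : List (ℤ × List Y))
    (hM : ∀ p ∈ M, P p.2) (h0 : xorM key M = 0) (l : List Y) : (2 : ℤ) ∣ toC M l := by
  classical
  by_cases hl : P l
  · have key2 : ∀ M : List (ℤ × List Y), (∀ p ∈ M, P p.2) →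
        toC M l % 2 = if (xorM key M).testBit (key l) then 1 else 0 := by
      intro M hM
      induction M with
      | nil => simp [toC, xorM]
      | cons p M ih =>
        have ih' := ih fun q hq => hM q (by simp [hq])
        have hp := hM p (by simp)
        rw [toC_cons, xorM]
        simp only [Finsupp.add_apply, Finsupp.smul_apply, gen, Finsupp.single_apply, smul_eq_mul]
        by_cases h1 : p.1 % 2 = 0
        · rw [if_pos h1, ← ih']
          split_ifs <;> omega
        · rw [if_neg h1, Nat.testBit_xor, Nat.testBit_two_pow]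
          by_cases h2 : p.2 = l
          · rw [if_pos h2, h2]
            cases h3 : (xorM key M).testBit (key l) <;> simp [h3] at ih' ⊢ <;> omega
          · have h4 : key p.2 ≠ key l := fun h => h2 (hkey _ _ hp hl h)
            rw [if_neg h2]
            cases h3 : (xorM key M).testBit (key l) <;> simp [h3, h4] at ih' ⊢ <;> omega
    have := key2 M hM
    rw [h0] at this
    simp only [Nat.zero_testBit, Bool.false_eq_true, if_false] at this
    omega
  · have : toC M l = 0 := by
      by_contra h
      exact hl (mem_Ch.1 (toC_mem hM) l h)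
    simp [this]

end Pool.Agent.P.MP_22a609_co
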